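import Pool.Agent.Lib.MP_50cd9e_lc.Sys
import Pool.Agent.Lib.MP_3930bf_lc.Cons

namespace Pool.Agent.Lib.MP_50cd9e_lc

open Pool.Agent.Lib.MP_3930bf_lc Pool.Agent.Lib.helper82

abbrev Var := ℕ × Nm
abbrev Eqn := List (Bool × Var × Var)

def tv : Var := (0, 0, [])
def sv : Var := (3, 0, [])
def cv (g : ℕ) (i : List Bool) : Var := (g, 0, i)

def atom (o : Var) (a : Atom) : Var := bif a.1 then o else (1, a.2)

def eqOf (o : Var) (c : Con) : Eqn :=
  bif c.1 then [(false, atom o c.2.1, atom o c.2.2.1), (true, atom o c.2.2.2, o)]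
  else [(false, atom o c.2.1, o), (false, atom o c.2.2.1, o), (true, atom o c.2.2.2, o)]

def xvars (cs : List Con) : List Var :=
  cs.flatMap fun c => [(1, c.2.1.2), (1, c.2.2.1.2), (1, c.2.2.2.2)]

def ones {α : Type} (l : List α) : List Bool := l.map fun _ => true
def mulL (a b : List Bool) : List Bool := a.flatMap fun _ => b
def steps (L : List Bool) : List (List Bool) :=
  (PT.scan (fun (s : List Bool) (_ : Bool) => true :: s) [] L).map Prod.fst

def chain (g : ℕ) (o : Var) (L : List Bool) : List Eqn :=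
  [(false, cv g [], o), (true, o, o), (true, o, o), (true, o, o), (true, o, o)] ::
    (steps L).map fun s => [(false, cv g (true :: s), o), (true, cv g s, cv g s)]

def cvars (g : ℕ) (L : List Bool) : List Var :=
  cv g [] :: (steps L).map fun s => cv g (true :: s)

def sqL (Q : List Eqn) : List Bool := Q.flatMap fun e => mulL (ones e) (ones e)

def kkL (n h : List Bool) : List Bool :=
  mulL (true :: n) (true :: n) ++ mulL [true, true, true, true] (true :: n) ++
    mulL [true, true, true, true, true, true, true, true] h ++ [true, true, true]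

def normC (o : Var) (U : List Var) : List Eqn := U.map fun v => [(false, v, o)]

def L1 (cs : List Con) : List Bool :=
  kkL (ones (xvars cs)) (sqL (cs.map (eqOf tv)) ++ sqL (normC tv (xvars cs)))

def ball (o : Var) (cs : List Con) : Eqn :=
  (false, sv, sv) :: (true, cv 2 (ones (L1 cs)), o) :: (xvars cs).map fun v => (false, v, v)

def Q1 (o : Var) (cs : List Con) : List Eqn :=
  ball o cs :: (chain 2 o (L1 cs) ++ cs.map (eqOf o))

def U1 (cs : List Con) : List Var := sv :: (cvars 2 (L1 cs) ++ xvars cs)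

def L2 (cs : List Con) : List Bool := kkL (ones (U1 cs)) (sqL (Q1 tv cs))

def zK (cs : List Con) : Var := cv 4 (ones (L2 cs))

def Q2 (cs : List Con) : List Eqn := chain 4 tv (L2 cs) ++ Q1 (zK cs) cs

def U2 (cs : List Con) : List Var := tv :: (cvars 4 (L2 cs) ++ U1 cs)

/-! lengths -/

@[simp] theorem length_ones {α : Type} (l : List α) : (ones l).length = l.length := by simp [ones]
@[simp] theorem length_mulL (a b : List Bool) : (mulL a b).length = a.length * b.length := by
  induction a with
  | nil => simp [mulL]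
  | cons x a ih =>
    simp only [mulL, List.flatMap_cons, List.length_append, List.length_cons] at ih ⊢
    rw [ih]
    ring
@[simp] theorem length_sqL (Q : List Eqn) : (sqL Q).length = sqLen Q := by
  induction Q with
  | nil => rfl
  | cons e Q ih =>
    simp only [sqL, List.flatMap_cons, List.length_append, sqLen, List.map_cons,
      List.sum_cons] at ih ⊢
    rw [ih]
    simp
theorem length_kkL (n h : List Bool) : (kkL n h).length = kk n.length h.length := by
  simp [kkL, kk]
  ring

theorem ones_eq {α : Type} (l : List α) : ones l = List.replicate l.length true := by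
  induction l with
  | nil => rfl
  | cons a l ih => simp [ones, List.replicate_succ] at ih ⊢

theorem scan_steps : ∀ (L : List Bool) (n : ℕ),
    (PT.scan (fun (s : List Bool) (_ : Bool) => true :: s) (List.replicate n true) L).map
      Prod.fst = (List.range L.length).map fun i => List.replicate (n + i) true
  | [], _ => rfl
  | b :: L, n => by
      have := scan_steps L (n + 1)
      simp only [PT.scan, List.map_cons, List.length_cons, List.range_succ_eq_map, List.map_map]
      rw [← List.replicate_succ, this]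
      congr 1
      refine List.map_congr_left fun i _ => ?_
      simp only [Function.comp]
      congr 1
      omega

theorem mem_steps {L s : List Bool} :
    s ∈ steps L ↔ ∃ i < L.length, s = List.replicate i true := by
  have := scan_steps L 0
  simp only [List.replicate_zero, zero_add] at this
  rw [steps, this]
  simp only [List.mem_map, List.mem_range]
  exact ⟨fun ⟨i, h1, h2⟩ => ⟨i, h1, h2.symm⟩, fun ⟨i, h1, h2⟩ => ⟨i, h1, h2.symm⟩⟩

theorem mem_cvars {g : ℕ} {L : List Bool} {v : Var} :
    v ∈ cvars g L ↔ ∃ i ≤ L.length, v = cv g (List.replicate i true) := by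
  simp only [cvars, List.mem_cons, List.mem_map, mem_steps]
  constructor
  · rintro (rfl | ⟨_, ⟨i, hi, rfl⟩, rfl⟩)
    · exact ⟨0, by omega, rfl⟩
    · exact ⟨i + 1, hi, rfl⟩
  · rintro ⟨_ | i, hi, rfl⟩
    · exact Or.inl rfl
    · exact Or.inr ⟨_, ⟨i, hi, rfl⟩, rfl⟩

theorem forall_chain {g : ℕ} {o : Var} {L : List Bool} {P : Eqn → Prop} :
    (∀ e ∈ chain g o L, P e) ↔
      P [(false, cv g [], o), (true, o, o), (true, o, o), (true, o, o), (true, o, o)] ∧
      ∀ i < L.length, P [(false, cv g (List.replicate (i + 1) true), o),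
        (true, cv g (List.replicate i true), cv g (List.replicate i true))] := by
  simp only [chain, List.mem_cons, forall_eq_or_imp, List.mem_map, mem_steps]
  refine and_congr_right fun _ => ⟨fun h i hi => h _ ⟨_, ⟨i, hi, rfl⟩, rfl⟩, ?_⟩
  rintro h _ ⟨_, ⟨i, hi, rfl⟩, rfl⟩
  exact h i hi

theorem over_chain (g : ℕ) (o : Var) (L : List Bool) :
    Over (fun v => v = o ∨ v ∈ cvars g L) (chain g o L) := by
  unfold Over
  rw [forall_chain]
  refine ⟨by simp [cvars], fun i hi => ?_⟩
  have h1 : cv g (List.replicate (i + 1) true) ∈ cvars g L := mem_cvars.2 ⟨i + 1, hi, rfl⟩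
  have h2 : cv g (List.replicate i true) ∈ cvars g L := mem_cvars.2 ⟨i, hi.le, rfl⟩
  simp [h1, h2]

theorem over_eqs (o : Var) (cs : List Con) :
    Over (fun v => v = o ∨ v ∈ xvars cs) (cs.map (eqOf o)) := by
  intro e he
  obtain ⟨c, hc, rfl⟩ := List.mem_map.1 he
  have h : ∀ a : Atom, ((1, a.2) : Var) ∈ xvars cs → atom o a = o ∨ atom o a ∈ xvars cs := by
    rintro ⟨_ | _, a⟩ h
    · exact Or.inr h
    · exact Or.inl rfl
  have h1 := h c.2.1 (List.mem_flatMap.2 ⟨c, hc, by simp⟩)
  have h2 := h c.2.2.1 (List.mem_flatMap.2 ⟨c, hc, by simp⟩)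
  have h3 := h c.2.2.2 (List.mem_flatMap.2 ⟨c, hc, by simp⟩)
  unfold eqOf
  cases c.1 <;> simp [h1, h2, h3]

theorem Over.mono {V : Type} {S T : V → Prop} {Q} (h : Over S Q) (hST : ∀ v, S v → T v) :
    Over T Q := fun e he m hm => ⟨hST _ (h e he m hm).1, hST _ (h e he m hm).2⟩

theorem Over.append {V : Type} {S : V → Prop} {Q Q'} (h : Over S Q) (h' : Over S Q') :
    Over S (Q ++ Q') := fun e he => (List.mem_append.1 he).elim (h e) (h' e)

theorem over_Q1 (o : Var) (cs : List Con) : Over (fun v => v = o ∨ v ∈ U1 cs) (Q1 o cs) := by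
  have h1 : Over (fun v => v = o ∨ v ∈ U1 cs) (chain 2 o (L1 cs) ++ cs.map (eqOf o)) :=
    ((over_chain 2 o _).mono fun v hv => hv.imp id fun h => by simp [U1, h]).append
      ((over_eqs o cs).mono fun v hv => hv.imp id fun h => by simp [U1, h])
  intro e he
  rcases List.mem_cons.1 he with rfl | he
  · intro m hm
    simp only [ball, List.mem_cons, List.mem_map] at hm
    rcases hm with rfl | rfl | ⟨v, hv, rfl⟩
    · simp [U1]
    · have : cv 2 (ones (L1 cs)) ∈ cvars 2 (L1 cs) := mem_cvars.2 ⟨_, le_rfl, by rw [ones_eq]⟩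
      simp [U1, this]
    · simp [U1, hv]
  · exact h1 e he

theorem over_Q2 (cs : List Con) : Over (fun v => v ∈ U2 cs) (Q2 cs) := by
  refine ((over_chain 4 tv _).mono fun v hv => ?_).append ((over_Q1 _ cs).mono fun v hv => ?_)
  · rcases hv with rfl | hv <;> simp [U2, *]
  · rcases hv with rfl | hv
    · have : zK cs ∈ cvars 4 (L2 cs) := mem_cvars.2 ⟨_, le_rfl, by rw [zK, ones_eq]⟩
      simp [U2, this]
    · simp [U2, hv]

theorem sqLen_eqs (o o' : Var) (cs : List Con) :
    sqLen (cs.map (eqOf o)) = sqLen (cs.map (eqOf o')) := by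
  simp only [sqLen, List.map_map]
  congr 1
  refine List.map_congr_left fun c _ => ?_
  simp only [Function.comp, eqOf]
  cases c.1 <;> rfl

theorem sqLen_Q1 (o o' : Var) (cs : List Con) : sqLen (Q1 o cs) = sqLen (Q1 o' cs) := by
  have := sqLen_eqs o o' cs
  simp only [sqLen, List.map_map, Function.comp_def] at this
  simp [sqLen, Q1, ball, chain, Function.comp_def, this]

/-! semantics -/

theorem evq_eqOf {w : Var → ℝ} {o : Var} (hw : w o = 1) (c : Con) :
    evq w (eqOf o c) = 0 ↔ Sat (fun n => w (1, n)) c := by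
  have h : ∀ a : Atom, w (atom o a) = ev (fun n => w (1, n)) a := by
    rintro ⟨_ | _, a⟩
    · rfl
    · exact hw
  rcases c with ⟨_ | _, x, y, z⟩
  · simp only [eqOf, cond_false, evq_cons, mono, h, hw, sat_false, evq_nil, sgn_true, sgn_false]
    constructor <;> intro <;> linarith
  · simp only [eqOf, cond_true, evq_cons, mono, h, hw, sat_true, evq_nil, sgn_true, sgn_false]
    constructor <;> intro <;> linarith

theorem evq_sq (w : Var → ℝ) (U : List Var) :
    evq w (U.map fun v => (false, v, v)) = (U.map fun v => w v ^ 2).sum := by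
  induction U with
  | nil => simp
  | cons v U ih => simp [ih, mono, sq]

theorem ss_normC {w : Var → ℝ} {o : Var} (hw : w o = 1) (U : List Var) :
    ss w (normC o U) = (U.map fun v => w v ^ 2).sum := by
  induction U with
  | nil => simp [normC]
  | cons v U ih =>
    simp only [normC] at ih
    simp [normC, ih, mono, hw]

theorem sq_le_sum (w : Var → ℝ) {U : List Var} {v : Var} (hv : v ∈ U) :
    w v ^ 2 ≤ (U.map fun v => w v ^ 2).sum :=
  List.single_le_sum (fun x hx => by
    obtain ⟨u, -, rfl⟩ := List.mem_map.1 hx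
    positivity) _ (List.mem_map_of_mem hv)

theorem sumsq_nonneg (w : Var → ℝ) (U : List Var) : 0 ≤ (U.map fun v => w v ^ 2).sum :=
  List.sum_nonneg fun x hx => by
    obtain ⟨u, -, rfl⟩ := List.mem_map.1 hx
    positivity

theorem abs_le_of_sq {a t : ℝ} (h : a ^ 2 ≤ t) : |a| ≤ 1 + t := by
  have := abs_nonneg a
  nlinarith [sq_abs a, sq_nonneg (|a| - 1)]

theorem evq_ball {w : Var → ℝ} {o : Var} (hw : w o = 1) (cs : List Con) :
    evq w (ball o cs) = w sv ^ 2 - w (cv 2 (ones (L1 cs))) +
      ((xvars cs).map fun v => w v ^ 2).sum := by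
  simp only [ball, evq_cons, evq_sq, mono, hw, sgn_true, sgn_false]
  ring

theorem tag_xvars {cs : List Con} {v : Var} (h : v ∈ xvars cs) : v.1 = 1 := by
  simp only [xvars, List.mem_flatMap, List.mem_cons, List.not_mem_nil, or_false] at h
  obtain ⟨c, -, rfl | rfl | rfl⟩ := h <;> rfl

theorem tag_U1 {cs : List Con} {v : Var} (h : v ∈ U1 cs) : v.1 ≠ 0 ∧ v.1 ≠ 4 := by
  simp only [U1, List.mem_cons, List.mem_append, mem_cvars] at h
  rcases h with rfl | ⟨i, -, rfl⟩ | h
  · simp [sv]
  · simp [cv]
  · simp [tag_xvars h]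

theorem chain_exact {w : Var → ℝ} {o : Var} {g : ℕ} (hw : w o = 1)
    (h : ∀ i, w (cv g (List.replicate i true)) = 4 ^ 2 ^ i) (L : List Bool) :
    ss w (chain g o L) = 0 := by
  rw [ss_eq_zero, forall_chain]
  refine ⟨?_, fun i _ => ?_⟩
  · have := h 0
    simp only [List.replicate_zero] at this
    simp [mono, hw, this]
    norm_num
  · simp only [evq_cons, mono, hw, h, evq_nil, sgn_true, sgn_false, pow_succ 2 i, pow_mul]
    ring

/-- the ball theorem -/
theorem feas_Q1 {cs : List Con} {o : Var} (ho : o.1 = 4)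
    (h : ∃ w : Nm → ℝ, ∀ c ∈ cs, Sat w c) : ∃ w : Var → ℝ, w o = 1 ∧ ss w (Q1 o cs) = 0 := by
  obtain ⟨w, hw⟩ := h
  obtain ⟨w₀, h0, h1, -, h2, -⟩ := lemG_sys o (xvars cs) (cs.map (eqOf o)) (normC o (xvars cs))
    (over_eqs o cs) (by
      intro e he m hm
      obtain ⟨v, hv, rfl⟩ := List.mem_map.1 he
      rw [List.mem_singleton.1 hm]
      exact ⟨Or.inr hv, Or.inl rfl⟩) (k := (L1 cs).length) (by
      rw [L1, length_kkL, length_ones, List.length_append, length_sqL, length_sqL,
        sqLen_eqs o tv]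
      simp [sqLen, normC, Function.comp_def])
    (fun t => ⟨1 + t, fun w hw ht v hv => abs_le_of_sq (by
      rw [ss_normC hw] at ht
      linarith [sq_le_sum w hv, ss_nonneg w (cs.map (eqOf o))])⟩)
    ⟨fun v => if v = o then 1 else w v.2, by simp, by
      rw [ss_eq_zero]
      intro e he
      obtain ⟨c, hc, rfl⟩ := List.mem_map.1 he
      rw [evq_eqOf (by simp)]
      have : (fun n : Nm => if ((1, n) : Var) = o then (1 : ℝ) else w ((1, n) : Var).2) = w := by
        funext n
        rw [if_neg]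
        rintro rfl
        simp at ho
      rw [this]
      exact hw c hc⟩
  rw [ss_normC h0] at h2
  set ν := ((xvars cs).map fun v => w₀ v ^ 2).sum with hν
  have h4 : (2 : ℝ) ^ 2 ^ (L1 cs).length ≤ 4 ^ 2 ^ (L1 cs).length :=
    pow_le_pow_left₀ (by norm_num) (by norm_num) _
  let w₁ : Var → ℝ := fun v => if v.1 = 2 then 4 ^ 2 ^ v.2.2.length else
    if v.1 = 3 then √(4 ^ 2 ^ (L1 cs).length - ν) else w₀ v
  have hw₁ : w₁ o = 1 := by simp [w₁, ho, h0]
  have hx : ∀ v ∈ xvars cs, w₁ v = w₀ v := fun v hv => by simp [w₁, tag_xvars hv]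
  refine ⟨w₁, hw₁, ?_⟩
  rw [Q1, ss_cons, ss_append, chain_exact hw₁ (fun i => by simp [w₁, cv]),
    ss_congr (over_eqs o cs) (w := w₀) (fun v hv => by
      rcases hv with rfl | hv
      · rw [hw₁, h0]
      · exact hx v hv), h1, evq_ball hw₁]
  have e1 : ((xvars cs).map fun v => w₁ v ^ 2).sum = ν := by
    rw [hν]
    congr 1
    exact List.map_congr_left fun v hv => by rw [hx v hv]
  have e2 : w₁ sv ^ 2 = 4 ^ 2 ^ (L1 cs).length - ν := by
    simp only [w₁, sv]
    norm_num
    exact Real.sq_sqrt (by linarith)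
  have e3 : w₁ (cv 2 (ones (L1 cs))) = 4 ^ 2 ^ (L1 cs).length := by simp [w₁, cv]
  rw [e1, e2, e3]
  ring

theorem sat_of_Q1 {cs : List Con} {o : Var} {w : Var → ℝ} (hw : w o = 1)
    (h : ss w (Q1 o cs) = 0) : ∃ w : Nm → ℝ, ∀ c ∈ cs, Sat w c := by
  rw [ss_eq_zero] at h
  exact ⟨fun n => w (1, n), fun c hc => (evq_eqOf hw c).1 (h _ (by
    simp only [Q1, List.mem_cons, List.mem_append]
    exact Or.inr (Or.inr (List.mem_map_of_mem hc))))⟩

noncomputable def cb (t : ℝ) : ℕ → ℝ
  | 0 => 5 + t
  | i + 1 => 1 + t + cb t i ^ 2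

theorem proper_Q1 (cs : List Con) (o : Var) (t : ℝ) : ∃ R : ℝ, ∀ w : Var → ℝ, w o = 1 →
    ss w (Q1 o cs) ≤ t → ∀ v ∈ U1 cs, |w v| ≤ R := by
  set k := (L1 cs).length with hk
  refine ⟨max (∑ i ∈ Finset.range (k + 1), |cb t i|) (2 + t + cb t k), fun w hw ht => ?_⟩
  have he : ∀ e ∈ Q1 o cs, |evq w e| ≤ 1 + t := fun e he =>
    abs_le_of_sq ((sq_le_ss w he).trans ht)
  have hc : ∀ e ∈ chain 2 o (L1 cs), |evq w e| ≤ 1 + t := fun e h => he e (by simp [Q1, h])
  rw [forall_chain] at hc
  have hr : ∀ i, i ≤ k → |w (cv 2 (List.replicate i true))| ≤ cb t i := by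
    intro i
    induction i with
    | zero =>
      intro _
      have := hc.1
      simp only [evq_cons, mono, hw, evq_nil, sgn_true, sgn_false] at this
      rw [abs_le] at this ⊢
      simp only [List.replicate_zero, cb]
      constructor <;> linarith [this.1, this.2]
    | succ i ih =>
      intro hi
      have h1 := hc.2 i hi
      have h2 := ih (by omega)
      simp only [evq_cons, mono, hw, evq_nil, sgn_true, sgn_false] at h1
      have h3 : w (cv 2 (List.replicate i true)) ^ 2 ≤ cb t i ^ 2 := by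
        rw [← sq_abs]
        exact pow_le_pow_left₀ (abs_nonneg _) h2 2
      rw [abs_le] at h1 ⊢
      simp only [cb]
      constructor <;> nlinarith [h1.1, h1.2, sq_nonneg (w (cv 2 (List.replicate i true)))]
  have hb := he _ List.mem_cons_self
  rw [evq_ball hw, ones_eq, abs_le] at hb
  have hrk := abs_le.1 (hr k le_rfl)
  have hs := sumsq_nonneg w (xvars cs)
  intro v hv
  simp only [U1, List.mem_cons, List.mem_append, mem_cvars] at hv
  rcases hv with rfl | ⟨i, hi, rfl⟩ | hv
  · refine le_trans (abs_le_of_sq (t := 1 + t + cb t k) ?_) (le_trans (by linarith) (le_max_right _ _))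
    linarith [hb.2]
  · refine le_trans ((hr i hi).trans (le_abs_self _)) (le_trans ?_ (le_max_left _ _))
    exact Finset.single_le_sum (f := fun i => |cb t i|) (fun _ _ => abs_nonneg _)
      (Finset.mem_range.2 (by omega))
  · refine le_trans (abs_le_of_sq (t := 1 + t + cb t k) ?_) (le_trans (by linarith) (le_max_right _ _))
    linarith [hb.2, sq_le_sum w hv, sq_nonneg (w sv)]

theorem main_alg (cs : List Con) :
    (∃ w : Nm → ℝ, ∀ c ∈ cs, Sat w c) ↔ ∃ w : Var → ℝ, ss w (Q2 cs) < w tv ^ 4 := by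
  set K := (L2 cs).length with hK
  have hz : zK cs = cv 4 (List.replicate K true) := by rw [zK, ones_eq]
  constructor
  · intro h
    obtain ⟨w₁, h1, h2⟩ := feas_Q1 (o := zK cs) rfl h
    let w : Var → ℝ := fun v => if v.1 = 4 then 4 ^ 2 ^ v.2.2.length else
      if v.1 = 0 then 1 else 4 ^ 2 ^ K * w₁ v
    have hw : w tv = 1 := by simp [w, tv]
    refine ⟨w, ?_⟩
    rw [Q2, ss_append, chain_exact hw (fun i => by simp [w, cv]),
      ss_scale (over_Q1 (zK cs) cs) (w := w₁) (4 ^ 2 ^ K) (fun v hv => by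
        rcases hv with rfl | hv
        · rw [h1, hz]
          simp [w, cv]
        · simp [w, (tag_U1 hv).1, (tag_U1 hv).2]), h2, hw]
    norm_num
  · rintro ⟨w, hw⟩
    have ht : w tv ≠ 0 := by
      intro h
      rw [h] at hw
      linarith [ss_nonneg w (Q2 cs)]
    have hall : ∀ Q : List Eqn, Over (fun _ => True) Q := fun _ _ _ _ _ => ⟨trivial, trivial⟩
    let w' : Var → ℝ := fun v => (w tv)⁻¹ * w v
    have hw't : w' tv = 1 := inv_mul_cancel₀ ht
    have hw' : ss w' (Q2 cs) < 1 := by
      rw [ss_scale (hall _) (w := w) (w tv)⁻¹ fun _ _ => rfl, inv_pow,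
        inv_mul_lt_iff₀ (by positivity), mul_one]
      exact hw
    have hc : ∀ e ∈ chain 4 tv (L2 cs), |evq w' e| < 1 := by
      intro e he
      have := (sq_le_ss w' (Q := Q2 cs) (List.mem_append_left _ he)).trans_lt hw'
      rwa [sq_lt_one_iff_abs_lt_one] at this
    rw [forall_chain] at hc
    have hzi : ∀ i, i ≤ K → 2 ^ 2 ^ i + 1 < w' (cv 4 (List.replicate i true)) := by
      intro i
      induction i with
      | zero =>
        intro _
        have := hc.1
        simp only [evq_cons, mono, hw't, evq_nil, sgn_true, sgn_false] at this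
        rw [abs_lt] at this
        simp only [List.replicate_zero]
        norm_num
        linarith [this.1]
      | succ i ih =>
        intro hi
        have h1 := hc.2 i hi
        have h2 := ih (by omega)
        simp only [evq_cons, mono, hw't, evq_nil, sgn_true, sgn_false] at h1
        rw [abs_lt] at h1
        have h3 : (1 : ℝ) ≤ 2 ^ 2 ^ i := one_le_pow₀ (by norm_num)
        rw [pow_succ 2 i, pow_mul]
        nlinarith [h1.1]
    have hZ := hzi K le_rfl
    rw [← hz] at hZ
    set Z := w' (zK cs) with hZdef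
    have hM : (1 : ℝ) ≤ 2 ^ 2 ^ K := one_le_pow₀ (by norm_num)
    have hZ1 : 1 < Z := by linarith
    let w'' : Var → ℝ := fun v => Z⁻¹ * w' v
    have hw''o : w'' (zK cs) = 1 := inv_mul_cancel₀ (by linarith)
    have h1 : ss w' (Q1 (zK cs) cs) < 1 := by
      rw [Q2, ss_append] at hw'
      linarith [ss_nonneg w' (chain 4 tv (L2 cs))]
    have h2 : ss w'' (Q1 (zK cs) cs) * Z ^ 4 < 1 := by
      rw [ss_scale (hall _) (w := w') Z⁻¹ fun _ _ => rfl]
      have : Z⁻¹ ^ 4 * ss w' (Q1 (zK cs) cs) * Z ^ 4 = ss w' (Q1 (zK cs) cs) := by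
        field_simp
      rwa [this]
    obtain ⟨w₀, h0, -, hmin, -, hν⟩ := lemG_sys (zK cs) (U1 cs) [] (Q1 (zK cs) cs)
      (fun e he => by simp at he) (over_Q1 _ cs) (k := K) (by
        rw [hK, L2, length_kkL, length_ones, length_sqL, sqLen_Q1 (zK cs) tv]
        simp [sqLen])
      (fun t => by simpa using proper_Q1 cs (zK cs) t) ⟨fun _ => 1, rfl, rfl⟩
    rcases hν with hν | hν
    · exact sat_of_Q1 h0 hν
    · exfalso
      have h3 := hmin w'' hw''o rfl
      have h4 : Z ≤ Z ^ 4 := le_self_pow₀ hZ1.le (by norm_num)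
      have h5 := ss_nonneg w₀ (Q1 (zK cs) cs)
      have h6 : ss w₀ (Q1 (zK cs) cs) * 2 ^ 2 ^ K ≤ ss w'' (Q1 (zK cs) cs) * Z ^ 4 :=
        mul_le_mul h3 (by linarith) (by positivity) (ss_nonneg _ _)
      linarith

end Pool.Agent.Lib.MP_50cd9e_lc
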