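import Pool.Agent.Lib.MP_50cd9e_lc.Perron

namespace Pool.Agent.Lib.MP_50cd9e_lc

open MvPolynomial Finset Filter Topology

theorem root_upper {D : ℕ} {p : ℕ → ℤ} {B ν : ℝ} (hB : ∀ j, |(p j : ℝ)| ≤ B)
    (hp : ∃ j < D, p j ≠ 0) (h : ∑ j ∈ range D, (p j : ℝ) * ν ^ j = 0) : ν ≤ 1 + B := by
  classical
  by_contra hν
  push Not at hν
  have hB0 : 0 ≤ B := (abs_nonneg _).trans (hB 0)
  have hex : ∃ j, ∀ i, j < i → i < D → p i = 0 := ⟨D, fun i h1 h2 => by omega⟩
  obtain ⟨j₁, hj₁, hp₁⟩ := hp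
  let j := Nat.find hex
  have hj : ∀ i, j < i → i < D → p i = 0 := Nat.find_spec hex
  have hjD : j < D := by
    have : j ≤ D - 1 := Nat.find_min' hex fun i h1 h2 => by omega
    omega
  have hpj : p j ≠ 0 := by
    intro h0
    rcases Nat.eq_zero_or_pos j with hz | hz
    · rcases Nat.eq_zero_or_pos j₁ with h1 | h1
      · exact hp₁ (by rw [h1, ← hz]; exact h0)
      · exact hp₁ (hj j₁ (by omega) hj₁)
    · refine Nat.find_min hex (m := j - 1) (by omega) fun i h1 h2 => ?_
      rcases (show i = j ∨ j < i by omega) with rfl | h3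
      · exact h0
      · exact hj i h3 h2
  have hs : ∑ i ∈ range D, (p i : ℝ) * ν ^ i = ∑ i ∈ range (j + 1), (p i : ℝ) * ν ^ i := by
    refine (sum_subset (range_subset_range.2 (by omega)) fun i hi hi' => ?_).symm
    simp only [mem_range] at hi hi'
    simp [hj i (by omega) hi]
  rw [hs, sum_range_succ] at h
  have hν1 : 1 < ν := by linarith
  have hνp : 0 < ν ^ j := by positivity
  have h1 : ν ^ j ≤ |(p j : ℝ) * ν ^ j| := by
    rw [abs_mul, abs_of_pos hνp]
    have : (1 : ℝ) ≤ |(p j : ℝ)| := by exact_mod_cast Int.one_le_abs hpj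
    nlinarith
  have h2 : |∑ i ∈ range j, (p i : ℝ) * ν ^ i| ≤ B * ∑ i ∈ range j, ν ^ i := by
    refine (abs_sum_le_sum_abs _ _).trans ?_
    rw [mul_sum]
    refine sum_le_sum fun i _ => ?_
    rw [abs_mul, abs_of_pos (by positivity : 0 < ν ^ i)]
    exact mul_le_mul_of_nonneg_right (hB i) (by positivity)
  have h3 : (p j : ℝ) * ν ^ j = -∑ i ∈ range j, (p i : ℝ) * ν ^ i := by linarith
  rw [h3, abs_neg] at h1
  have h4 := geom_sum_mul ν j
  have h5 : 0 ≤ ∑ i ∈ range j, ν ^ i := sum_nonneg fun i _ => by positivity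
  nlinarith

theorem root_lower {D : ℕ} {p : ℕ → ℤ} {B ν : ℝ} (hB : ∀ j, |(p j : ℝ)| ≤ B)
    (hp : ∃ j < D, p j ≠ 0) (h : ∑ j ∈ range D, (p j : ℝ) * ν ^ j = 0) (hν : 0 < ν) :
    1 ≤ ν * (1 + B) := by
  have := root_upper (D := D) (p := fun j => p (D - 1 - j)) (B := B) (ν := ν⁻¹)
    (fun j => hB _) (by
      obtain ⟨j, hj, hpj⟩ := hp
      exact ⟨D - 1 - j, by omega, by rwa [show D - 1 - (D - 1 - j) = j by omega]⟩) (by
      rw [← sum_range_reflect] at h
      have h2 : (∑ j ∈ range D, (p (D - 1 - j) : ℝ) * ν⁻¹ ^ j) * ν ^ (D - 1) = 0 := by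
        rw [← h, sum_mul]
        refine sum_congr rfl fun j hj => ?_
        have hj := mem_range.1 hj
        rw [mul_assoc, show D - 1 = j + (D - 1 - j) by omega, pow_add, ← mul_assoc (ν⁻¹ ^ j),
          ← mul_pow, inv_mul_cancel₀ hν.ne', one_pow, one_mul]
        congr 3
        omega
      exact (mul_eq_zero.1 h2).resolve_right (by positivity))
  rwa [inv_le_iff_one_le_mul₀' hν] at this

theorem limit_lowest {W : Type*} [Fintype W] (wt : W → ℕ) (hwt : Function.Injective wt)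
    (c : W → ℝ → ℝ) (hc : ∀ a, Continuous (c a)) (τ : ℝ → ℝ) (ν : ℝ)
    (hτ : Tendsto τ (𝓝[>] 0) (𝓝 ν))
    (h : ∀ᶠ s in 𝓝[>] (0 : ℝ), ∑ a, s ^ wt a * c a (τ s) = 0) (a₀ : W)
    (h₀ : ∀ a, wt a < wt a₀ → c a = 0) : c a₀ ν = 0 := by
  classical
  have h1 : Tendsto (fun s : ℝ => ∑ a, s ^ (wt a - wt a₀) * c a (τ s)) (𝓝[>] 0)
      (𝓝 (∑ a, (0 : ℝ) ^ (wt a - wt a₀) * c a ν)) := by
    refine tendsto_finsetSum _ fun a _ => Tendsto.mul ?_ (((hc a).tendsto ν).comp hτ)
    exact ((continuous_pow _).tendsto 0).mono_left nhdsWithin_le_nhds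
  have h2 : ∀ᶠ s in 𝓝[>] (0 : ℝ), ∑ a, s ^ (wt a - wt a₀) * c a (τ s) = 0 := by
    filter_upwards [h, self_mem_nhdsWithin] with s hs hs0
    have hs0 : (0 : ℝ) < s := hs0
    have : s ^ wt a₀ * ∑ a, s ^ (wt a - wt a₀) * c a (τ s) = 0 := by
      rw [← hs, mul_sum]
      refine sum_congr rfl fun a _ => ?_
      by_cases ha : wt a < wt a₀
      · simp [h₀ a ha]
      · rw [← mul_assoc, ← pow_add]
        congr 2
        omega
    exact (mul_eq_zero.1 this).resolve_left (by positivity)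
  have h3 := tendsto_nhds_unique (h1.congr' h2) tendsto_const_nhds
  rw [sum_eq_single a₀] at h3
  · simpa using h3
  · intro a _ ha
    by_cases hlt : wt a < wt a₀
    · simp [h₀ a hlt]
    · have : wt a ≠ wt a₀ := fun h => ha (hwt h)
      rw [zero_pow (by omega), zero_mul]
  · simp

theorem hasDerivAt_aeval {σ : Type*} [DecidableEq σ] (x : σ → ℝ) (i : σ)
    (p : MvPolynomial σ ℤ) :
    HasDerivAt (fun t => aeval (Function.update x i t) p) (aeval x (pderiv i p)) (x i) := by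
  induction p using MvPolynomial.induction_on with
  | C a => simpa using hasDerivAt_const (x i) (a : ℝ)
  | add p q hp hq => simpa using hp.fun_add hq
  | mul_X p j hp =>
    simp only [map_mul, aeval_X, pderiv_mul, map_add]
    have h2 : HasDerivAt (fun t => Function.update x i t j) (aeval x (pderiv i (X j : MvPolynomial σ ℤ))) (x i) := by
      by_cases hij : j = i
      · subst hij
        simpa using hasDerivAt_id' (x j)
      · simpa [hij, pderiv_X_of_ne hij] using hasDerivAt_const (x i) (x j)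
    have := hp.fun_mul h2
    simpa using this

theorem continuous_aeval {σ : Type*} (p : MvPolynomial σ ℤ) :
    Continuous fun x : σ → ℝ => aeval x p := by
  induction p using MvPolynomial.induction_on with
  | C a => simpa using continuous_const
  | add p q hp hq => simp only [map_add]; exact hp.add hq
  | mul_X p j hp => simp only [map_mul, aeval_X]; exact hp.mul (continuous_apply j)

/-- penalty method -/
theorem penalty {N : ℕ} {f c : (Fin N → ℝ) → ℝ} (hf : Continuous f) (hc : Continuous c)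
    (f0 : ∀ x, 0 ≤ f x) (c0 : ∀ x, 0 ≤ c x) {x₀ : Fin N → ℝ} (hx₀ : f x₀ = 0)
    (hmin : ∀ x, f x = 0 → c x₀ ≤ c x) {R : ℝ}
    (hR : ∀ x, f x + c x ≤ c x₀ + 1 → ‖x‖ < R) (e : Fin N → ℕ) (he : ∀ i, 2 ≤ e i) :
    ∃ y : ℝ → Fin N → ℝ, Tendsto (fun s => c (y s)) (𝓝[>] 0) (𝓝 (c x₀)) ∧
      ∀ᶠ s in 𝓝[>] (0 : ℝ), IsLocalMin (fun x => f x + s * c x - ∑ i, s ^ e i * x i) (y s) := by
  set ν := c x₀ with hν
  have hR0 : ‖x₀‖ < R := hR x₀ (by rw [hx₀]; linarith)
  have hRpos : 0 < R := lt_of_le_of_lt (norm_nonneg _) hR0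
  have hν0 : 0 ≤ ν := c0 _
  have hx₀K : x₀ ∈ Metric.closedBall (0 : Fin N → ℝ) R := by simpa using hR0.le
  have hex : ∀ s : ℝ, ∃ y ∈ Metric.closedBall (0 : Fin N → ℝ) R,
      IsMinOn (fun x => f x + s * c x - ∑ i, s ^ e i * x i) (Metric.closedBall 0 R) y := by
    intro s
    refine (isCompact_closedBall _ _).exists_isMinOn ⟨x₀, hx₀K⟩ (Continuous.continuousOn ?_)
    fun_prop
  choose y hyK hy using hex
  have hlin : ∀ s : ℝ, 0 < s → s ≤ 1 → ∀ x ∈ Metric.closedBall (0 : Fin N → ℝ) R,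
      |∑ i, s ^ e i * x i| ≤ s ^ 2 * (N * R) := by
    intro s hs hs1 x hx
    refine (abs_sum_le_sum_abs _ _).trans ?_
    have : ∀ i ∈ (univ : Finset (Fin N)), |s ^ e i * x i| ≤ s ^ 2 * R := by
      intro i _
      rw [abs_mul, abs_of_pos (by positivity)]
      refine mul_le_mul (pow_le_pow_of_le_one hs.le hs1 (he i)) ?_ (abs_nonneg _) (by positivity)
      exact (norm_le_pi_norm x i).trans (by simpa using hx)
    refine (sum_le_sum this).trans (le_of_eq ?_)
    simp
    ring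
  have hkey : ∀ s : ℝ, 0 < s → s ≤ 1 →
      f (y s) + s * c (y s) ≤ s * ν + 2 * (s ^ 2 * (N * R)) := by
    intro s hs hs1
    have h1 := hy s hx₀K
    simp only [Set.mem_ofPred_eq, hx₀] at h1
    have h2 := abs_le.1 (hlin s hs hs1 _ hx₀K)
    have h3 := abs_le.1 (hlin s hs hs1 _ (hyK s))
    linarith [h2.1, h3.2]
  have hsmall : ∀ η : ℝ, 0 < η → ∀ᶠ s in 𝓝[>] (0 : ℝ),
      0 < s ∧ s ≤ 1 ∧ s * ν + 2 * (s ^ 2 * (N * R)) < η ∧ 2 * (s * (N * R)) < η := by
    intro η hη
    have t1 : Tendsto (fun s : ℝ => s * ν + 2 * (s ^ 2 * (N * R))) (𝓝[>] 0) (𝓝 0) := by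
      have : Continuous fun s : ℝ => s * ν + 2 * (s ^ 2 * (N * R)) := by fun_prop
      simpa using (this.tendsto 0).mono_left nhdsWithin_le_nhds
    have t2 : Tendsto (fun s : ℝ => 2 * (s * (N * R))) (𝓝[>] 0) (𝓝 0) := by
      have : Continuous fun s : ℝ => 2 * (s * (N * R)) := by fun_prop
      simpa using (this.tendsto 0).mono_left nhdsWithin_le_nhds
    filter_upwards [self_mem_nhdsWithin, Ioc_mem_nhdsGT (show (0 : ℝ) < 1 by norm_num),
      t1.eventually (gt_mem_nhds hη), t2.eventually (gt_mem_nhds hη)] with s h1 h2 h3 h4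
    exact ⟨h1, h2.2, h3, h4⟩
  have hup : ∀ s : ℝ, 0 < s → s ≤ 1 → c (y s) ≤ ν + 2 * (s * (N * R)) := by
    intro s hs hs1
    have h1 := hkey s hs hs1
    have h2 := f0 (y s)
    refine le_of_mul_le_mul_left ?_ hs
    nlinarith
  have hf' : ∀ s : ℝ, 0 < s → s ≤ 1 → f (y s) ≤ s * ν + 2 * (s ^ 2 * (N * R)) := by
    intro s hs hs1
    have h1 := hkey s hs hs1
    have h2 := mul_nonneg hs.le (c0 (y s))
    linarith
  refine ⟨y, ?_, ?_⟩
  · rw [tendsto_order]
    constructor
    · intro a ha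
      let K := Metric.closedBall (0 : Fin N → ℝ) R ∩ {x | c x ≤ a}
      have hK : IsCompact K :=
        (isCompact_closedBall _ _).inter_right (isClosed_le hc continuous_const)
      obtain ⟨γ, hγ, hγK⟩ : ∃ γ, 0 < γ ∧ ∀ x ∈ K, γ ≤ f x := by
        rcases K.eq_empty_or_nonempty with h | h
        · exact ⟨1, one_pos, by simp [h]⟩
        · obtain ⟨z, hz, hzmin⟩ := hK.exists_isMinOn h hf.continuousOn
          refine ⟨f z, lt_of_le_of_ne (f0 z) fun h0 => ?_, fun x hx => hzmin hx⟩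
          have := hmin z h0.symm
          have : c z ≤ a := hz.2
          linarith
      filter_upwards [hsmall γ hγ] with s ⟨h1, h2, h3, _⟩
      by_contra hn
      push Not at hn
      have := hγK (y s) ⟨hyK s, hn⟩
      linarith [hf' s h1 h2]
    · intro a ha
      filter_upwards [hsmall (a - ν) (by linarith)] with s ⟨h1, h2, _, h4⟩
      linarith [hup s h1 h2]
  · filter_upwards [hsmall (1 / 2) (by norm_num)] with s ⟨h1, h2, h3, h4⟩
    refine (hy s).isLocalMin ?_
    have : ‖y s‖ < R := hR _ (by linarith [hup s h1 h2, hf' s h1 h2])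
    exact Filter.mem_of_superset (Metric.isOpen_ball.mem_nhds (by simpa using this))
      Metric.ball_subset_closedBall

def kk (N H : ℕ) : ℕ := (N + 1) * (N + 1) + 4 * (N + 1) + (8 * H + 1) + 2

theorem lemG_fin {N H : ℕ} {f c : MvPolynomial (Fin N) ℤ} (hf : Sm 4 H f) (hc : Sm 4 H c)
    (f0 : ∀ x : Fin N → ℝ, 0 ≤ aeval x f) (c0 : ∀ x : Fin N → ℝ, 0 ≤ aeval x c)
    {x₀ : Fin N → ℝ} (hx₀ : aeval x₀ f = 0)
    (hmin : ∀ x : Fin N → ℝ, aeval x f = 0 → aeval x₀ c ≤ aeval x c) {R : ℝ}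
    (hR : ∀ x : Fin N → ℝ, aeval x f + aeval x c ≤ aeval x₀ c + 1 → ‖x‖ < R) :
    aeval x₀ c ≤ (2 : ℝ) ^ 2 ^ kk N H ∧
      (aeval x₀ c = 0 ∨ 1 ≤ aeval x₀ c * (2 : ℝ) ^ 2 ^ kk N H) := by
  classical
  let G : Fin (N + 1) → MvPolynomial (Fin (N + 1)) ℤ :=
    Fin.cases (X 0) fun i => rename Fin.succ (pderiv i f) + X 0 * rename Fin.succ (pderiv i c)
  have hG : ∀ i, Sm 5 (8 * H + 1) (G i) := by
    refine Fin.cases ((Sm.X 0).mono (by omega) (by omega)) fun i => ?_
    exact ((((hf.pderiv i).rename _).mono (by omega : 4 ≤ 5) le_rfl).add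
      ((Sm.X 0).mul ((hc.pderiv i).rename _))).mono le_rfl (by omega)
  obtain ⟨D, hD2, p, hp0, hpB, hp⟩ : ∃ D, 2 ≤ D ∧ ∃ p : (Fin (N + 1) → Fin D) × Fin D → ℤ,
      p ≠ 0 ∧ (∀ α, |p α| ≤ pB (N + 1) (8 * H + 1)) ∧
      ∑ α, MvPolynomial.C (p α) *
        ((∏ i, G i ^ (α.1 i : ℕ)) * rename Fin.succ c ^ (α.2 : ℕ)) = 0 :=
    ⟨_, two_le_pD _, perron (by omega) G (rename Fin.succ c) hG
      ((hc.rename _).mono (by omega) (by omega))⟩
  obtain ⟨y, hy1, hy2⟩ := penalty (continuous_aeval f) (continuous_aeval c) f0 c0 hx₀ hmin hR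
    (fun i => D ^ (i.val + 1)) (fun i => hD2.trans (Nat.le_self_pow (by omega) _))
  set ν := aeval x₀ c with hν
  let wt : (Fin (N + 1) → Fin D) → ℕ := fun a => finFunctionFinEquiv a
  have hwt : Function.Injective wt := fun a b h => finFunctionFinEquiv.injective (Fin.ext h)
  let cc : (Fin (N + 1) → Fin D) → ℝ → ℝ := fun a t => ∑ j : Fin D, (p (a, j) : ℝ) * t ^ (j : ℕ)
  have hex : ∃ n, ∃ a, wt a = n ∧ ∃ j, p (a, j) ≠ 0 := by
    by_contra hn
    push Not at hn
    exact hp0 (funext fun α => hn _ α.1 rfl α.2)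
  obtain ⟨a₀, ha₀, j₀, hj₀⟩ := Nat.find_spec hex
  have hlim : cc a₀ ν = 0 := by
    refine limit_lowest wt hwt cc (fun a => by fun_prop) (fun s => aeval (y s) c) ν hy1 ?_ a₀ ?_
    · filter_upwards [hy2] with s hs
      have hgrad : ∀ i : Fin N, aeval (y s) (pderiv i f) + s * aeval (y s) (pderiv i c) =
          s ^ D ^ (i.val + 1) := by
        intro i
        have h1 : IsLocalMin (fun t => aeval (Function.update (y s) i t) f +
            s * aeval (Function.update (y s) i t) c -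
            ∑ k : Fin N, s ^ D ^ (k.val + 1) * Function.update (y s) i t k) (y s i) := by
          have hs' : IsLocalMin (fun x : Fin N → ℝ => aeval x f + s * aeval x c -
              ∑ k : Fin N, s ^ D ^ (k.val + 1) * x k) (Function.update (y s) i (y s i)) := by
            rwa [Function.update_eq_self]
          exact hs'.comp_continuous (g := fun t => Function.update (y s) i t)
            (Continuous.continuousAt (by fun_prop))
        have h2 : HasDerivAt (fun t => ∑ k : Fin N, s ^ D ^ (k.val + 1) *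
            Function.update (y s) i t k) (s ^ D ^ (i.val + 1)) (y s i) := by
          have : HasDerivAt (fun t => ∑ k : Fin N, s ^ D ^ (k.val + 1) *
              Function.update (y s) i t k)
              (∑ k : Fin N, s ^ D ^ (k.val + 1) * (if k = i then 1 else 0)) (y s i) := by
            refine HasDerivAt.fun_sum fun k _ => HasDerivAt.const_mul _ ?_
            by_cases hk : k = i
            · subst hk
              simpa using hasDerivAt_id' (y s k)
            · simpa [hk] using hasDerivAt_const (y s i) (y s k)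
          simpa using this
        have h3 := h1.hasDerivAt_eq_zero (((hasDerivAt_aeval (y s) i f).add
          ((hasDerivAt_aeval (y s) i c).const_mul s)).sub h2)
        linarith
      have hGev : ∀ i, aeval (Fin.cons s (y s) : Fin (N + 1) → ℝ) (G i) = s ^ D ^ (i : ℕ) := by
        refine Fin.cases (by simp [G]) fun i => ?_
        simp only [G, Fin.cases_succ, map_add, map_mul, aeval_X, aeval_rename, Fin.cons_zero,
          Fin.val_succ]
        exact hgrad i
      have h := congrArg (aeval (Fin.cons s (y s) : Fin (N + 1) → ℝ)) hp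
      simp only [map_sum, map_mul, map_prod, map_pow, hGev, aeval_rename, map_zero, aeval_C,
        Fintype.sum_prod_type] at h
      rw [← h]
      refine sum_congr rfl fun a _ => ?_
      simp only [cc, mul_sum]
      refine sum_congr rfl fun j _ => ?_
      have : ∏ i : Fin (N + 1), (s ^ D ^ (i : ℕ)) ^ (a i : ℕ) = s ^ wt a := by
        simp only [wt, finFunctionFinEquiv_apply, ← pow_mul, prod_pow_eq_pow_sum]
        congr 1
        exact sum_congr rfl fun i _ => mul_comm _ _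
      rw [this]
      have e : (Fin.cons s (y s) : Fin (N + 1) → ℝ) ∘ Fin.succ = y s := rfl
      rw [e]
      simp only [eq_intCast]
      ring
    · intro a ha
      funext t
      have : ∀ j, p (a, j) = 0 := by
        intro j
        by_contra hn
        exact Nat.find_min hex (ha₀ ▸ ha) ⟨a, rfl, j, hn⟩
      simp [cc, this]
  let q : ℕ → ℤ := fun j => if h : j < D then p (a₀, ⟨j, h⟩) else 0
  have hqB : ∀ j, |(q j : ℝ)| ≤ (pB (N + 1) (8 * H + 1) : ℝ) := by
    intro j
    simp only [q]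
    split_ifs
    · exact_mod_cast hpB _
    · simp
  have hq0 : ∃ j < D, q j ≠ 0 := ⟨j₀, j₀.2, by simpa [q] using hj₀⟩
  have hq : ∑ j ∈ range D, (q j : ℝ) * ν ^ j = 0 := by
    rw [← hlim, sum_range]
    simp [cc, q]
  have hB : 1 + (pB (N + 1) (8 * H + 1) : ℝ) ≤ (2 : ℝ) ^ 2 ^ kk N H := by
    exact_mod_cast pB_le (N + 1) (8 * H + 1)
  refine ⟨(root_upper hqB hq0 hq).trans hB, ?_⟩
  rcases (c0 x₀).eq_or_lt with h | h
  · exact Or.inl h.symm
  · exact Or.inr ((root_lower hqB hq0 hq h).trans (mul_le_mul_of_nonneg_left hB h.le))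

end Pool.Agent.Lib.MP_50cd9e_lc
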