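import Pool.Agent.Lib.MP_3930bf_lc.Defs

namespace Pool.Agent.Lib.MP_50cd9e_lc

/-- An input: a dimension `d`, a rational `d × d × d` tensor and a positive rational bound. -/
structure Inst where
  d : ℕ
  T : Fin d → Fin d → Fin d → ℚ
  σ : ℚ
  pos : 0 < σ

/-- The spectral norm of the tensor. -/
noncomputable def Inst.specNorm (I : Inst) : ℝ :=
  sSup {r : ℝ | ∃ x y z : Fin I.d → ℝ, ∑ i, x i ^ 2 = 1 ∧ ∑ j, y j ^ 2 = 1 ∧ ∑ k, z k ^ 2 = 1 ∧
    r = |∑ i, ∑ j, ∑ k, (I.T i j k : ℝ) * x i * y j * z k|}

/-- The bit string of an input: `d`, the entries and the bound, all in binary. -/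
def encInst (I : Inst) : List Bool :=
  N487b59b3.bitEncode
    (I.d, (List.ofFn fun i => List.ofFn fun j => List.ofFn fun k => I.T i j k), I.σ)

/-- Polynomial time many-one reduction between decision problems on encoded inputs. -/
def Red {α β : Type} (ea : α → List Bool) (A : α → Prop) (eb : β → List Bool) (B : β → Prop) :
    Prop :=
  ∃ f : α → β, Nonempty (Turing.TM2ComputableInPolyTime ea eb f) ∧ ∀ a, A a ↔ B (f a)

/-- Membership in the class of complements of problems reducible to the existential theory of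
the reals. -/
def InForallR {α : Type} (ea : α → List Bool) (A : α → Prop) : Prop :=
  Red ea (fun a => ¬ A a) MP_3930bf_lc.encFm fun φ => ∃ y : ℕ → ℝ, φ.Holds y

end Pool.Agent.Lib.MP_50cd9e_lc
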