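import Pool.Agent.Lib.MP_50cd9e_lc.Red
import Pool.Agent.Lib.helper82.Sim

namespace Pool.Agent.Lib.MP_50cd9e_lc

open Pool.Agent.Lib.MP_3930bf_lc (allCons Tm Fm encFm)
open Pool.Agent.Lib.helper82

def sumTm {β : Type} (l : List β) (g : β → Tm) : Tm := l.foldr (fun b t => .add (g b) t) .zero
def andFm {β : Type} (l : List β) (g : β → Fm) : Fm :=
  l.foldr (fun b t => .and (g b) t) (.eq .zero .zero)
def bitsTm (l : List Bool) : Tm :=
  l.foldr (fun b t => .add (bif b then .one else .zero) (.mul (.add .one .one) t)) .zero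
def numTm (n : ℕ) : Tm := bitsTm n.bits
def xv (g i : ℕ) : Tm := .var (tag false (g, i))
def tq (q : ℚ) : Tm := .var (tag true q)
def idxd {β : Type} (l : List β) : List (ℕ × β) := PT.scan (fun (s : ℕ) (_ : β) => s + 1) 0 l

abbrev Dat := ℕ × List (List (List ℚ)) × ℚ
abbrev Ent := ℕ × ℕ × ℕ × ℚ

def ents (R : List (List (List ℚ))) : List Ent :=
  (idxd R).flatMap fun r => (idxd r.2).flatMap fun c => (idxd c.2).map fun e =>
    (r.1, c.1, e.1, e.2)

def entTm (e : Ent) : Tm := .mul (.mul (.mul (tq e.2.2.2) (xv 0 e.1)) (xv 1 e.2.1)) (xv 2 e.2.2.1)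
def normFm (g : ℕ) (R : List (List (List ℚ))) : Fm :=
  .eq (sumTm (idxd R) fun r => .mul (xv g r.1) (xv g r.1)) .one
def ratFm (q : ℚ) : Fm :=
  .eq (.add (.mul (numTm q.den) (tq q)) (numTm (-q.num).toNat)) (numTm q.num.toNat)

def memFm (D : Dat) : Fm :=
  .and (.and (normFm 0 D.2.1) (.and (normFm 1 D.2.1) (normFm 2 D.2.1)))
    (.and (.and (ratFm D.2.2) (andFm (ents D.2.1) fun e => ratFm e.2.2.2))
      (.or (.lt (tq D.2.2) (sumTm (ents D.2.1) entTm))
        (.lt (.add (tq D.2.2) (sumTm (ents D.2.1) entTm)) .zero)))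

/-! codes -/

theorem code_sumTm {β : Type} (l : List β) (g : β → Tm) :
    (sumTm l g).code = (l.flatMap fun b => 2 :: (g b).code) ++ [0] := by
  induction l with
  | nil => rfl
  | cons b l ih =>
    simp only [sumTm, List.foldr_cons, Tm.code, List.flatMap_cons] at ih ⊢
    rw [ih]
    simp

theorem code_andFm {β : Type} (l : List β) (g : β → Fm) :
    (andFm l g).code = (l.flatMap fun b => 7 :: (g b).code) ++ [4, 0, 0] := by
  induction l with
  | nil => rfl
  | cons b l ih =>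
    simp only [andFm, List.foldr_cons, Fm.code, List.flatMap_cons] at ih ⊢
    rw [ih]
    simp

theorem code_bitsTm (l : List Bool) :
    (bitsTm l).code = (l.flatMap fun b => [2, bif b then 1 else 0, 3, 2, 1, 1]) ++ [0] := by
  induction l with
  | nil => rfl
  | cons b l ih =>
    simp only [bitsTm, List.foldr_cons, Tm.code, List.flatMap_cons] at ih ⊢
    rw [ih]
    cases b <;> simp [Tm.code]

section
variable {α β : Type} [Enc α] [Enc β]

def PTm (f : α → Tm) : Prop := PT fun a => (f a).code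
def PFm (f : α → Fm) : Prop := PT fun a => (f a).code

theorem PTm.const (t : Tm) : PTm fun _ : α => t := PT.const _
theorem PTm.add {s t : α → Tm} (hs : PTm s) (ht : PTm t) : PTm fun a => .add (s a) (t a) :=
  PT.cons (PT.const 2) (PT.append hs ht)
theorem PTm.mul {s t : α → Tm} (hs : PTm s) (ht : PTm t) : PTm fun a => .mul (s a) (t a) :=
  PT.cons (PT.const 3) (PT.append hs ht)
theorem PTm.var {n : α → ℕ} (hn : PT n) : PTm fun a => .var (n a) :=
  PT.cons (PT.add hn (PT.const 9)) (PT.const [])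
theorem PFm.eq {s t : α → Tm} (hs : PTm s) (ht : PTm t) : PFm fun a => .eq (s a) (t a) :=
  PT.cons (PT.const 4) (PT.append hs ht)
theorem PFm.lt {s t : α → Tm} (hs : PTm s) (ht : PTm t) : PFm fun a => .lt (s a) (t a) :=
  PT.cons (PT.const 5) (PT.append hs ht)
theorem PFm.and {s t : α → Fm} (hs : PFm s) (ht : PFm t) : PFm fun a => .and (s a) (t a) :=
  PT.cons (PT.const 7) (PT.append hs ht)
theorem PFm.or {s t : α → Fm} (hs : PFm s) (ht : PFm t) : PFm fun a => .or (s a) (t a) :=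
  PT.cons (PT.const 8) (PT.append hs ht)

theorem PTm.sum [Inhabited β] {l : α → List β} {g : β → Tm} (hl : PT l) (hg : PTm g) :
    PTm fun a => sumTm (l a) g :=
  (PT.append (PT.flatMap (F := fun _ b => 2 :: (g b).code) hl
    (PT.cons (PT.const 2) (PT.comp (G := fun b => (g b).code) hg PT.snd'))) (PT.const [0])).congr
    fun a => (code_sumTm _ _).symm

theorem PFm.all [Inhabited β] {l : α → List β} {g : β → Fm} (hl : PT l) (hg : PFm g) :
    PFm fun a => andFm (l a) g :=
  (PT.append (PT.flatMap (F := fun _ b => 7 :: (g b).code) hl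
    (PT.cons (PT.const 7) (PT.comp (G := fun b => (g b).code) hg PT.snd')))
      (PT.const [4, 0, 0])).congr fun a => (code_andFm _ _).symm

theorem PTm.num {n : α → ℕ} (hn : PT n) : PTm fun a => numTm (n a) :=
  (PT.append (PT.flatMap (F := fun _ (b : Bool) => ([2, bif b then 1 else 0, 3, 2, 1, 1] : List ℕ))
    (PT.bits hn) (PT.comp (G := fun b : Bool => ([2, bif b then 1 else 0, 3, 2, 1, 1] : List ℕ))
      (PT.ofFintype _) PT.snd')) (PT.const [0])).congr fun a => (code_bitsTm _).symm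

theorem PTm.xv (g : ℕ) {i : α → ℕ} (hi : PT i) : PTm fun a => xv g (i a) :=
  PTm.var (PT.tag false (PT.pair (PT.const g) hi))

theorem PTm.tq {q : α → ℚ} (hq : PT q) : PTm fun a => tq (q a) := PTm.var (PT.tag true hq)

theorem idxd_pt [Inhabited β] {l : α → List β} (hl : PT l) : PT fun a => idxd (l a) :=
  PT.scan_pt (h := fun (s : ℕ) (_ : β) => s + 1) hl (PT.const 0) (PT.succ PT.fst') 2
    fun s _ => by
      have := PT.sz_add_le s 1
      have : sz (1 : ℕ) ≤ 1 := sz_nat_le_self 1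
      omega

theorem PFm.rat {q : α → ℚ} (hq : PT q) : PFm fun a => ratFm (q a) := by
  have h : PT fun a => ((((q a).num.toNat, (-(q a).num).toNat), (q a).den) : (ℕ × ℕ) × ℕ) := hq
  exact PFm.eq (PTm.add (PTm.mul (PTm.num (PT.snd h)) (PTm.tq hq)) (PTm.num (PT.snd (PT.fst h))))
    (PTm.num (PT.fst (PT.fst h)))

end

theorem ents_pt : PT ents := by
  refine PT.flatMap (F := fun _ (r : ℕ × List (List ℚ)) => (idxd r.2).flatMap fun c =>
    (idxd c.2).map fun e => ((r.1, c.1, e.1, e.2) : Ent)) (idxd_pt PT.id) ?_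
  refine PT.flatMap (F := fun (p : List (List (List ℚ)) × ℕ × List (List ℚ)) (c : ℕ × List ℚ) =>
    (idxd c.2).map fun e => ((p.2.1, c.1, e.1, e.2) : Ent)) (idxd_pt (PT.snd PT.snd')) ?_
  exact PT.map (F := fun (p : (List (List (List ℚ)) × ℕ × List (List ℚ)) × ℕ × List ℚ)
    (e : ℕ × ℚ) => ((p.1.2.1, p.2.1, e.1, e.2) : Ent)) (idxd_pt (PT.snd PT.snd'))
    (PT.pair (PT.fst (PT.snd (PT.fst PT.fst'))) (PT.pair (PT.fst (PT.snd PT.fst')) PT.snd'))

theorem memFm_pt : PFm memFm := by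
  have hR : PT fun D : Dat => D.2.1 := PT.fst PT.snd'
  have hs : PT fun D : Dat => D.2.2 := PT.snd PT.snd'
  have hE : PT fun D : Dat => ents D.2.1 := PT.comp (G := ents) ents_pt hR
  have hn : ∀ g, PFm fun D : Dat => normFm g D.2.1 := fun g =>
    PFm.eq (PTm.sum (idxd_pt hR) (PTm.mul (PTm.xv g PT.fst') (PTm.xv g PT.fst'))) (PTm.const _)
  have he : PTm entTm :=
    PTm.mul (PTm.mul (PTm.mul (PTm.tq (PT.snd (PT.snd PT.snd'))) (PTm.xv 0 PT.fst'))
      (PTm.xv 1 (PT.fst PT.snd'))) (PTm.xv 2 (PT.fst (PT.snd PT.snd')))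
  have hS : PTm fun D : Dat => sumTm (ents D.2.1) entTm := PTm.sum hE he
  exact PFm.and (PFm.and (hn 0) (PFm.and (hn 1) (hn 2)))
    (PFm.and (PFm.and (PFm.rat hs) (PFm.all hE (PFm.rat (PT.snd (PT.snd PT.snd')))))
      (PFm.or (PFm.lt (PTm.tq hs) hS) (PFm.lt (PTm.add (PTm.tq hs) hS) (PTm.const _))))

/-! semantics -/

theorem eval_sumTm {β : Type} (y : ℕ → ℝ) (l : List β) (g : β → Tm) :
    (sumTm l g).eval y = (l.map fun b => (g b).eval y).sum := by
  induction l with
  | nil => rfl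
  | cons b l ih =>
    simp only [sumTm, List.foldr_cons, Tm.eval, List.map_cons, List.sum_cons] at ih ⊢
    rw [ih]

theorem holds_andFm {β : Type} (y : ℕ → ℝ) (l : List β) (g : β → Fm) :
    (andFm l g).Holds y ↔ ∀ b ∈ l, (g b).Holds y := by
  induction l with
  | nil => simp [andFm, Fm.Holds]
  | cons b l ih =>
    simp only [andFm, List.foldr_cons, Fm.Holds, List.forall_mem_cons] at ih ⊢
    rw [ih]

theorem eval_bitsTm (y : ℕ → ℝ) (l : List Bool) : (bitsTm l).eval y = (ofB l : ℝ) := by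
  induction l with
  | nil => simp [bitsTm, ofB, Tm.eval]
  | cons b l ih =>
    simp only [bitsTm, List.foldr_cons, Tm.eval, ofB] at ih ⊢
    rw [ih]
    cases b
    · simp only [cond_false, Tm.eval, Nat.bit]; push_cast; ring
    · simp only [cond_true, Tm.eval, Nat.bit]; push_cast; ring

theorem eval_numTm (y : ℕ → ℝ) (n : ℕ) : (numTm n).eval y = n := by
  rw [numTm, eval_bitsTm, ofB_bits]

theorem holds_ratFm (y : ℕ → ℝ) (q : ℚ) : (ratFm q).Holds y ↔ y (tag true q) = q := by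
  simp only [ratFm, Fm.Holds, Tm.eval, eval_numTm, tq]
  have h1 : ((q.num.toNat : ℕ) : ℝ) - (((-q.num).toNat : ℕ) : ℝ) = (q.num : ℝ) := by
    have := Int.toNat_sub_toNat_neg q.num
    exact_mod_cast congrArg (fun z : ℤ => (z : ℝ)) this
  have h2 : (q.den : ℝ) * q = q.num := by exact_mod_cast Rat.den_mul_eq_num q
  have h3 : (q.den : ℝ) ≠ 0 := by exact_mod_cast q.den_nz
  constructor
  · intro h
    apply mul_left_cancel₀ h3
    linarith
  · intro h
    rw [h]
    linarith

theorem scan_ofFn {β : Type} : ∀ (d : ℕ) (f : Fin d → β) (n : ℕ),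
    PT.scan (fun (s : ℕ) (_ : β) => s + 1) n (List.ofFn f) = List.ofFn fun i => (n + i, f i)
  | 0, _, _ => by simp [PT.scan]
  | d + 1, f, n => by
      rw [List.ofFn_succ, List.ofFn_succ, PT.scan, scan_ofFn d]
      congr 2
      funext i
      simp only [Fin.val_succ]
      congr 1
      omega

theorem idxd_ofFn {β : Type} {d : ℕ} (f : Fin d → β) :
    idxd (List.ofFn f) = List.ofFn fun i => ((i : ℕ), f i) := by
  rw [idxd, scan_ofFn]
  simp

theorem sum_flatMap_ofFn {β γ : Type} {d : ℕ} (f : Fin d → β) (F : β → List γ) (g : γ → ℝ) :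
    (((List.ofFn f).flatMap F).map g).sum = ∑ i, ((F (f i)).map g).sum := by
  rw [← List.sum_ofFn]
  have : (List.ofFn fun i => ((F (f i)).map g).sum) =
      (List.ofFn f).map fun b => ((F b).map g).sum := by
    rw [List.map_ofFn]; rfl
  rw [this]
  induction List.ofFn f with
  | nil => rfl
  | cons b l ih => simp [ih]

def dat (I : Inst) : Dat :=
  (I.d, (List.ofFn fun i => List.ofFn fun j => List.ofFn fun k => I.T i j k), I.σ)

theorem sum_ents (I : Inst) (g : Ent → ℝ) :
    ((ents (dat I).2.1).map g).sum = ∑ i : Fin I.d, ∑ j : Fin I.d, ∑ k : Fin I.d,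
      g ((i : ℕ), (j : ℕ), (k : ℕ), I.T i j k) := by
  simp only [ents, dat, idxd_ofFn]
  rw [sum_flatMap_ofFn]
  refine Finset.sum_congr rfl fun i _ => ?_
  simp only [idxd_ofFn]
  rw [sum_flatMap_ofFn]
  refine Finset.sum_congr rfl fun j _ => ?_
  simp only [idxd_ofFn, List.map_ofFn, List.sum_ofFn]
  rfl

theorem mem_ents (I : Inst) (i j k : Fin I.d) :
    (((i : ℕ), (j : ℕ), (k : ℕ), I.T i j k) : Ent) ∈ ents (dat I).2.1 := by
  simp only [ents, dat, idxd_ofFn, List.mem_flatMap, List.mem_ofFn, List.mem_map]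
  refine ⟨_, ⟨i, rfl⟩, ((j : ℕ), List.ofFn fun k => I.T i j k), ?_, ?_⟩
  · simp only [idxd_ofFn, List.mem_ofFn]
    exact ⟨j, rfl⟩
  · simp only [idxd_ofFn, List.mem_ofFn]
    exact ⟨_, ⟨k, rfl⟩, rfl⟩

theorem holds_normFm (I : Inst) (y : ℕ → ℝ) (g : ℕ) :
    (normFm g (dat I).2.1).Holds y ↔ ∑ i : Fin I.d, y (tag false (g, (i : ℕ))) ^ 2 = 1 := by
  simp only [normFm, Fm.Holds, eval_sumTm, dat, idxd_ofFn, List.map_ofFn, List.sum_ofFn, Tm.eval,
    Function.comp, xv, sq]

theorem holds_memFm (I : Inst) : (∃ y, (memFm (dat I)).Holds y) ↔ ¬ I.specNorm ≤ I.σ := by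
  rw [spec_le_iff]
  have key : ∀ y : ℕ → ℝ, (∀ e ∈ ents (dat I).2.1, y (tag true e.2.2.2) = e.2.2.2) →
      (sumTm (ents (dat I).2.1) entTm).eval y = ∑ i : Fin I.d, ∑ j : Fin I.d, ∑ k : Fin I.d,
        (I.T i j k : ℝ) * y (tag false (0, (i : ℕ))) * y (tag false (1, (j : ℕ))) * y (tag false (2, (k : ℕ))) := by
    intro y hy
    rw [eval_sumTm, sum_ents]
    refine Finset.sum_congr rfl fun i _ => Finset.sum_congr rfl fun j _ =>
      Finset.sum_congr rfl fun k _ => ?_
    simp only [entTm, Tm.eval, tq, xv]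
    rw [hy _ (mem_ents I i j k)]
  simp only [memFm, Fm.Holds, holds_normFm, holds_andFm, holds_ratFm]
  constructor
  · rintro ⟨y, ⟨h0, h1, h2⟩, ⟨hs, he⟩, h⟩ H
    have := H _ _ _ h0 h1 h2
    simp only [Tm.eval, key y he, tq, hs] at h
    rw [abs_le] at this
    change (I.σ : ℝ) < _ ∨ (I.σ : ℝ) + _ < _ at h
    rcases h with h | h <;> linarith [this.1, this.2]
  · intro H
    push Not at H
    obtain ⟨x, y, z, hx, hy, hz, h⟩ := H
    let u : ℕ × ℕ → ℝ := fun p =>
      if h : p.2 < I.d then (if p.1 = 0 then x else if p.1 = 1 then y else z) ⟨p.2, h⟩ else 0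
    let a : ℕ → ℝ := Function.extend (tag false) u
      (Function.extend (tag true) (fun q : ℚ => (q : ℝ)) 0)
    have ha0 : ∀ p : ℕ × ℕ, a (tag false p) = u p := fun p =>
      (tag_injective false).extend_apply _ _ p
    have ha1 : ∀ q : ℚ, a (tag true q) = q := fun q => by
      simp only [a]
      rw [Function.extend_apply' _ _ _ (by rintro ⟨v, hv⟩; exact tag_ne v q hv),
        (tag_injective true).extend_apply]
    have e0 : ∀ i : Fin I.d, a (tag false (0, (i : ℕ))) = x i := fun i => by simp [ha0, u]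
    have e1 : ∀ i : Fin I.d, a (tag false (1, (i : ℕ))) = y i := fun i => by simp [ha0, u]
    have e2 : ∀ i : Fin I.d, a (tag false (2, (i : ℕ))) = z i := fun i => by simp [ha0, u]
    refine ⟨a, ⟨by simpa [e0] using hx, by simpa [e1] using hy, by simpa [e2] using hz⟩,
      ⟨ha1 _, fun e _ => ha1 _⟩, ?_⟩
    simp only [Tm.eval, key a fun e _ => ha1 _, tq, ha1, e0, e1, e2]
    change (I.σ : ℝ) < _ ∨ (I.σ : ℝ) + _ < _
    rcases lt_abs.1 h with h | h
    · exact Or.inl h
    · exact Or.inr (by linarith)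

theorem ptr_dat {β : Type} [Enc β] {G : Dat → β} (hG : PT G) :
    PTR encInst fun I : Inst => enc (G (dat I)) :=
  PTR.comp (F := dat) hG PTR.id

theorem bound_mem : InForallR encInst fun I => I.specNorm ≤ I.σ :=
  ⟨fun I => memFm (dat I), PTR.toTM2 (ptr_dat memFm_pt), fun I => (holds_memFm I).symm⟩

theorem bound_hard {α : Type} (ea : α → List Bool) (A : α → Prop) (h : InForallR ea A) :
    Red ea A encInst fun I => I.specNorm ≤ I.σ := by
  obtain ⟨f, hf, hA⟩ := h
  refine ⟨fun a => inst (allCons (f a).code),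
    tm2_comp (G := fun φ : Fm => inst (allCons φ.code)) hf (PTR.toTM2 inst_ptr), fun a => ?_⟩
  exact ((inst_iff (f a)).trans ((not_congr (hA a)).symm.trans not_not)).symm

end Pool.Agent.Lib.MP_50cd9e_lc
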