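import Mathlib

namespace Pool.Agent.Lib.MP_50cd9e_lc

open MvPolynomial Finset

variable {σ τ : Type*}

noncomputable def l1 (p : MvPolynomial σ ℤ) : ℤ := ∑ m ∈ p.support, |coeff m p|

theorem l1_nonneg (p : MvPolynomial σ ℤ) : 0 ≤ l1 p := sum_nonneg fun _ _ => abs_nonneg _

theorem l1_eq_of_subset {p : MvPolynomial σ ℤ} {s : Finset (σ →₀ ℕ)} (h : p.support ⊆ s) :
    l1 p = ∑ m ∈ s, |coeff m p| :=
  sum_subset h fun m _ hm => by simp [notMem_support_iff.1 hm]

theorem coeff_le_l1 (p : MvPolynomial σ ℤ) (m : σ →₀ ℕ) : |coeff m p| ≤ l1 p := by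
  by_cases h : m ∈ p.support
  · exact single_le_sum (f := fun m => |coeff m p|) (fun _ _ => abs_nonneg _) h
  · simp [notMem_support_iff.1 h, l1_nonneg]

theorem l1_add (p q : MvPolynomial σ ℤ) : l1 (p + q) ≤ l1 p + l1 q := by
  classical
  rw [l1_eq_of_subset (support_add (p := p) (q := q)),
    l1_eq_of_subset (p := p) (s := p.support ∪ q.support) subset_union_left,
    l1_eq_of_subset (p := q) (s := p.support ∪ q.support) subset_union_right, ← sum_add_distrib]
  exact sum_le_sum fun m _ => by rw [coeff_add]; exact abs_add_le _ _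

theorem l1_zero : l1 (0 : MvPolynomial σ ℤ) = 0 := by simp [l1]

theorem l1_sum {ι : Type*} (s : Finset ι) (f : ι → MvPolynomial σ ℤ) :
    l1 (∑ i ∈ s, f i) ≤ ∑ i ∈ s, l1 (f i) := by
  classical
  induction s using Finset.induction_on with
  | empty => simp [l1_zero]
  | insert a s ha ih =>
    rw [sum_insert ha, sum_insert ha]
    exact (l1_add _ _).trans (by linarith)

theorem l1_monomial (m : σ →₀ ℕ) (c : ℤ) : l1 (monomial m c) ≤ |c| := by
  classical
  rw [l1_eq_of_subset (support_monomial_subset (s := m) (a := c))]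
  simp

theorem l1_mul (p q : MvPolynomial σ ℤ) : l1 (p * q) ≤ l1 p * l1 q := by
  conv_lhs => rw [p.as_sum, q.as_sum, sum_mul_sum]
  refine (l1_sum _ _).trans ?_
  unfold l1
  rw [sum_mul_sum]
  refine sum_le_sum fun a _ => (l1_sum _ _).trans (sum_le_sum fun b _ => ?_)
  rw [monomial_mul, ← abs_mul]
  exact l1_monomial _ _

theorem l1_neg (p : MvPolynomial σ ℤ) : l1 (-p) = l1 p := by simp [l1]

theorem l1_rename (f : σ → τ) (p : MvPolynomial σ ℤ) : l1 (rename f p) ≤ l1 p := by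
  conv_lhs => rw [p.as_sum, map_sum]
  refine (l1_sum _ _).trans (sum_le_sum fun a _ => ?_)
  rw [rename_monomial]
  exact l1_monomial _ _

/-- small polynomials: degree at most `d`, sum of absolute values of coefficients at most `H` -/
structure Sm (d : ℕ) (H : ℕ) (p : MvPolynomial σ ℤ) : Prop where
  deg : p.totalDegree ≤ d
  ht : l1 p ≤ H

theorem Sm.mono {d d' H H' : ℕ} {p : MvPolynomial σ ℤ} (h : Sm d H p) (hd : d ≤ d')
    (hH : H ≤ H') : Sm d' H' p :=
  ⟨h.deg.trans hd, h.ht.trans (by exact_mod_cast hH)⟩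

theorem Sm.add {d H H' : ℕ} {p q : MvPolynomial σ ℤ} (h : Sm d H p) (h' : Sm d H' q) :
    Sm d (H + H') (p + q) :=
  ⟨(totalDegree_add _ _).trans (max_le h.deg h'.deg),
    (l1_add _ _).trans (by push_cast; linarith [h.ht, h'.ht])⟩

theorem Sm.mul {d d' H H' : ℕ} {p q : MvPolynomial σ ℤ} (h : Sm d H p) (h' : Sm d' H' q) :
    Sm (d + d') (H * H') (p * q) :=
  ⟨(totalDegree_mul _ _).trans (add_le_add h.deg h'.deg),
    (l1_mul _ _).trans (by
      push_cast
      exact mul_le_mul h.ht h'.ht (l1_nonneg _) (by positivity))⟩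

theorem Sm.neg {d H : ℕ} {p : MvPolynomial σ ℤ} (h : Sm d H p) : Sm d H (-p) :=
  ⟨by rw [totalDegree_neg]; exact h.deg, by rw [l1_neg]; exact h.ht⟩

theorem Sm.zero (d : ℕ) : Sm d 0 (0 : MvPolynomial σ ℤ) := ⟨by simp, by simp [l1_zero]⟩

theorem Sm.one : Sm 0 1 (1 : MvPolynomial σ ℤ) :=
  ⟨by simp, by simpa using l1_monomial (σ := σ) 0 1⟩

theorem Sm.X (i : σ) : Sm 1 1 (X i : MvPolynomial σ ℤ) :=
  ⟨by simp, l1_monomial (σ := σ) (Finsupp.single i 1) 1⟩

theorem Sm.pow {d H : ℕ} {p : MvPolynomial σ ℤ} (h : Sm d H p) (n : ℕ) :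
    Sm (n * d) (H ^ n) (p ^ n) := by
  induction n with
  | zero => simpa using Sm.one
  | succ n ih =>
    rw [pow_succ, pow_succ, Nat.succ_mul]
    exact ih.mul h

theorem Sm.prod {ι : Type*} (s : Finset ι) {d H : ℕ} {f : ι → MvPolynomial σ ℤ}
    (h : ∀ i ∈ s, Sm d H (f i)) : Sm (s.card * d) (H ^ s.card) (∏ i ∈ s, f i) := by
  classical
  induction s using Finset.induction_on with
  | empty => simpa using Sm.one
  | insert a s ha ih =>
    rw [prod_insert ha, card_insert_of_notMem ha, Nat.succ_mul, pow_succ, add_comm _ d,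
      mul_comm _ H]
    exact (h a (mem_insert_self _ _)).mul (ih fun i hi => h i (mem_insert_of_mem hi))

theorem Sm.rename {d H : ℕ} {p : MvPolynomial σ ℤ} (h : Sm d H p) (f : σ → τ) :
    Sm d H (rename f p) :=
  ⟨(totalDegree_rename_le _ _).trans h.deg, (l1_rename _ _).trans h.ht⟩

theorem Sm.pderiv {d H : ℕ} {p : MvPolynomial σ ℤ} (h : Sm d H p) (i : σ) :
    Sm d (d * H) (pderiv i p) := by
  classical
  have e : MvPolynomial.pderiv i p = ∑ a ∈ p.support,
      monomial (a - Finsupp.single i 1) (coeff a p * a i) := by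
    conv_lhs => rw [p.as_sum, map_sum]
    exact sum_congr rfl fun a _ => pderiv_monomial
  have hd : ∀ a ∈ p.support, (a.sum fun _ e => e) ≤ d := fun a ha =>
    (le_totalDegree ha).trans h.deg
  constructor
  · rw [e]
    refine (totalDegree_finsetSum _ _).trans (Finset.sup_le fun a ha => ?_)
    refine (totalDegree_monomial_le _ _).trans (le_trans ?_ (hd a ha))
    have : a - Finsupp.single i 1 ≤ a := tsub_le_self
    calc ((a - Finsupp.single i 1).sum fun _ => id)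
        = Finsupp.degree (a - Finsupp.single i 1) := rfl
      _ ≤ Finsupp.degree a := Finsupp.degree_mono this
      _ = a.sum fun _ e => e := rfl
  · rw [e]
    refine (l1_sum _ _).trans ?_
    refine le_trans (sum_le_sum (g := fun a => (d : ℤ) * |coeff a p|) fun a ha => ?_) ?_
    · refine (l1_monomial _ _).trans ?_
      rw [abs_mul, mul_comm]
      refine mul_le_mul_of_nonneg_right ?_ (abs_nonneg _)
      have : a i ≤ d := (Finsupp.le_degree i a).trans (hd a ha)
      simpa using this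
    · rw [← mul_sum]
      push_cast
      exact mul_le_mul_of_nonneg_left h.ht (by positivity)

def pD (n : ℕ) : ℕ := 2 * (6 * (n + 1)) ^ n

theorem two_le_pD (n : ℕ) : 2 ≤ pD n := by
  unfold pD
  have : 1 ≤ (6 * (n + 1)) ^ n := Nat.one_le_pow _ _ (by omega)
  omega

def pB (n H : ℕ) : ℕ := pD n ^ (n + 1) * H ^ (pD n * (n + 1))

attribute [local instance] Matrix.seminormedAddCommGroup in
theorem perron {n H : ℕ} (hH : 1 ≤ H) (G : Fin n → MvPolynomial (Fin n) ℤ)
    (C : MvPolynomial (Fin n) ℤ) (hG : ∀ i, Sm 5 H (G i)) (hC : Sm 5 H C) :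
    ∃ p : (Fin n → Fin (pD n)) × Fin (pD n) → ℤ, p ≠ 0 ∧ (∀ α, |p α| ≤ pB n H) ∧
      ∑ α, MvPolynomial.C (p α) * ((∏ i, G i ^ (α.1 i : ℕ)) * C ^ (α.2 : ℕ)) = 0 := by
  classical
  set D := pD n with hD
  have hD2 : 2 ≤ D := two_le_pD n
  set E := 5 * (n + 1) * D + 1 with hE
  let M : (Fin n → Fin D) × Fin D → MvPolynomial (Fin n) ℤ :=
    fun α => (∏ i, G i ^ (α.1 i : ℕ)) * C ^ (α.2 : ℕ)
  have hM : ∀ α, Sm (5 * (n + 1) * D) (H ^ (D * (n + 1))) (M α) := by
    intro α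
    have h1 : ∀ i ∈ (univ : Finset (Fin n)), Sm (D * 5) (H ^ D) (G i ^ (α.1 i : ℕ)) :=
      fun i _ => ((hG i).pow _).mono (Nat.mul_le_mul_right _ (α.1 i).2.le)
        (Nat.pow_le_pow_right hH (α.1 i).2.le)
    have h2 : Sm (D * 5) (H ^ D) (C ^ (α.2 : ℕ)) :=
      (hC.pow _).mono (Nat.mul_le_mul_right _ α.2.2.le) (Nat.pow_le_pow_right hH α.2.2.le)
    refine ((Sm.prod _ h1).mul h2).mono ?_ ?_
    · simp only [card_univ, Fintype.card_fin]
      exact le_of_eq (by ring)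
    · simp only [card_univ, Fintype.card_fin]
      exact le_of_eq (by ring)
  let ex : (Fin n → Fin E) → (Fin n →₀ ℕ) :=
    fun μ => Finsupp.equivFunOnFinite.symm fun i => (μ i : ℕ)
  let A : Matrix (Fin n → Fin E) ((Fin n → Fin D) × Fin D) ℤ :=
    Matrix.of fun μ α => coeff (ex μ) (M α)
  have hcard1 : Fintype.card (Fin n → Fin E) = E ^ n := by simp
  have hcard2 : Fintype.card ((Fin n → Fin D) × Fin D) = D ^ (n + 1) := by simp [pow_succ]
  have hEn : 2 * E ^ n ≤ D ^ (n + 1) := by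
    have h1 : E ≤ 6 * (n + 1) * D := by nlinarith
    calc 2 * E ^ n ≤ 2 * (6 * (n + 1) * D) ^ n :=
          Nat.mul_le_mul_left _ (Nat.pow_le_pow_left h1 _)
      _ = D ^ (n + 1) := by rw [mul_pow, ← mul_assoc, pow_succ, mul_comm (D ^ n) D]; rfl
  have hEpos : 0 < E ^ n := by positivity
  obtain ⟨t, ht0, ht1, ht2⟩ := Int.Matrix.exists_ne_zero_int_vec_norm_le A
    (by rw [hcard1, hcard2]; omega) (by rw [hcard1]; exact hEpos)
  rw [hcard1, hcard2] at ht2
  have hA : ‖A‖ ≤ (H : ℝ) ^ (D * (n + 1)) := by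
    rw [Matrix.norm_le_iff (by positivity)]
    intro μ α
    have := (coeff_le_l1 (M α) (ex μ)).trans (hM α).ht
    rw [Int.norm_eq_abs]
    exact_mod_cast this
  have hH1 : (1 : ℝ) ≤ (H : ℝ) ^ (D * (n + 1)) := one_le_pow₀ (by exact_mod_cast hH)
  have hbase : (1 : ℝ) ≤ ((D ^ (n + 1) : ℕ) : ℝ) * max 1 ‖A‖ := by
    have : (1 : ℝ) ≤ ((D ^ (n + 1) : ℕ) : ℝ) := by
      exact_mod_cast Nat.one_le_pow _ _ (by omega)
    exact one_le_mul_of_one_le_of_one_le this (le_max_left _ _)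
  have hexp : ((E ^ n : ℕ) : ℝ) / (((D ^ (n + 1) : ℕ) : ℝ) - ((E ^ n : ℕ) : ℝ)) ≤ 1 := by
    have h1 : (2 : ℝ) * ((E ^ n : ℕ) : ℝ) ≤ ((D ^ (n + 1) : ℕ) : ℝ) := by exact_mod_cast hEn
    have h2 : (0 : ℝ) < ((E ^ n : ℕ) : ℝ) := by exact_mod_cast hEpos
    rw [div_le_one (by linarith)]
    linarith
  have ht3 : ‖t‖ ≤ (pB n H : ℝ) := by
    refine ht2.trans ((Real.rpow_le_rpow_of_exponent_le hbase hexp).trans ?_)
    rw [Real.rpow_one, pB]
    push_cast
    exact mul_le_mul_of_nonneg_left (max_le hH1 hA) (by positivity)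
  refine ⟨t, ht0, fun α => ?_, ?_⟩
  · have := (norm_le_pi_norm t α).trans ht3
    rw [Int.norm_eq_abs] at this
    exact_mod_cast this
  · ext m
    by_cases hm : ∀ i, m i < E
    · have h1 := congrFun ht1 (fun i => ⟨m i, hm i⟩)
      have h2 : ex (fun i => ⟨m i, hm i⟩) = m := by
        ext i
        simp [ex]
      simp only [Matrix.mulVec, dotProduct, A, Matrix.of_apply, h2, Pi.zero_apply] at h1
      rw [coeff_sum, coeff_zero, ← h1]
      exact sum_congr rfl fun α _ => by rw [coeff_C_mul, mul_comm]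
    · push Not at hm
      obtain ⟨i, hi⟩ := hm
      rw [coeff_sum, coeff_zero]
      refine sum_eq_zero fun α _ => ?_
      rw [coeff_C_mul]
      have : coeff m (M α) = 0 := by
        refine coeff_eq_zero_of_totalDegree_lt (lt_of_le_of_lt (hM α).deg ?_)
        have : m i ≤ ∑ j ∈ m.support, m j := Finsupp.le_degree i m
        omega
      rw [this, mul_zero]

theorem pB_le (n H : ℕ) : 1 + pB n H ≤ 2 ^ 2 ^ (n * n + 4 * n + H + 2) := by
  have h1 : pD n ≤ 2 ^ (n * n + 3 * n + 1) := by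
    have : 6 * (n + 1) ≤ 2 ^ (n + 3) := by
      have := Nat.lt_two_pow_self (n := n)
      rw [pow_add]
      omega
    calc pD n ≤ 2 * (2 ^ (n + 3)) ^ n := Nat.mul_le_mul_left _ (Nat.pow_le_pow_left this _)
      _ = 2 ^ (n * n + 3 * n + 1) := by
          rw [← pow_mul, ← pow_succ']
          congr 1
          ring
  have h2 : pD n ≤ 2 ^ pD n := Nat.lt_two_pow_self.le
  have h3 : H ≤ 2 ^ H := Nat.lt_two_pow_self.le
  have h4 : pB n H ≤ 2 ^ (pD n * (n + 1) * (H + 1)) := by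
    calc pB n H ≤ (2 ^ pD n) ^ (n + 1) * (2 ^ H) ^ (pD n * (n + 1)) :=
          Nat.mul_le_mul (Nat.pow_le_pow_left h2 _) (Nat.pow_le_pow_left h3 _)
      _ = 2 ^ (pD n * (n + 1) * (H + 1)) := by
          rw [← pow_mul, ← pow_mul, ← pow_add]
          congr 1
          ring
  have h5 : pD n * (n + 1) * (H + 1) ≤ 2 ^ (n * n + 4 * n + H + 1) := by
    calc pD n * (n + 1) * (H + 1) ≤ 2 ^ (n * n + 3 * n + 1) * 2 ^ n * 2 ^ H :=
          Nat.mul_le_mul (Nat.mul_le_mul h1 Nat.lt_two_pow_self) Nat.lt_two_pow_self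
      _ = 2 ^ (n * n + 4 * n + H + 1) := by ring
  have h6 : 2 ^ (n * n + 4 * n + H + 1) + 1 ≤ 2 ^ (n * n + 4 * n + H + 2) := by
    have : 1 ≤ 2 ^ (n * n + 4 * n + H + 1) := Nat.one_le_two_pow
    rw [pow_succ 2 (n * n + 4 * n + H + 1)]
    omega
  calc 1 + pB n H ≤ 2 ^ (pD n * (n + 1) * (H + 1)) + 2 ^ (pD n * (n + 1) * (H + 1)) :=
        add_le_add Nat.one_le_two_pow h4
    _ = 2 ^ (pD n * (n + 1) * (H + 1) + 1) := by ring
    _ ≤ _ := Nat.pow_le_pow_right (by norm_num) (by omega)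

end Pool.Agent.Lib.MP_50cd9e_lc
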