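import Pool.Agent.Lib.MP_50cd9e_lc.Tensor
import Pool.Agent.Lib.helper82.Arith

namespace Pool.Agent.Lib.MP_50cd9e_lc

open Pool.Agent.Lib.MP_3930bf_lc (Con Nm Atom allCons allCons_pt holds_iff Fm encFm)
open Pool.Agent.Lib.helper82

def isIn (b : Var) (s : List Var) : Bool := decide (b ∈ s)

def dd (l : List Var) : List Var :=
  l.foldl (fun s b => bif isIn b s then s else b :: s) []

theorem dd_aux : ∀ (l s : List Var), s.Nodup →
    (l.foldl (fun s b => bif isIn b s then s else b :: s) s).Nodup ∧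
      ∀ v, v ∈ l.foldl (fun s b => bif isIn b s then s else b :: s) s ↔ v ∈ l ∨ v ∈ s
  | [], s, hs => by simp [hs]
  | b :: l, s, hs => by
      rw [List.foldl_cons]
      by_cases hb : b ∈ s
      · rw [show isIn b s = true by simp [isIn, hb], cond_true]
        obtain ⟨h1, h2⟩ := dd_aux l s hs
        refine ⟨h1, fun v => (h2 v).trans ?_⟩
        simp only [List.mem_cons]
        constructor
        · tauto
        · rintro ((rfl | h) | h) <;> tauto
      · rw [show isIn b s = false by simp [isIn, hb], cond_false]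
        obtain ⟨h1, h2⟩ := dd_aux l (b :: s) (List.nodup_cons.2 ⟨hb, hs⟩)
        refine ⟨h1, fun v => (h2 v).trans ?_⟩
        simp only [List.mem_cons]
        tauto

theorem dd_nodup (l : List Var) : (dd l).Nodup := (dd_aux l [] List.nodup_nil).1
theorem mem_dd {l : List Var} {v : Var} : v ∈ dd l ↔ v ∈ l := by
  simpa [dd] using (dd_aux l [] List.nodup_nil).2 v

theorem tag_U2 {cs : List Con} {v : Var} (h : v ∈ U2 cs) : v.1 ≤ 4 := by
  simp only [U2, U1, List.mem_cons, List.mem_append, mem_cvars] at h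
  rcases h with rfl | ⟨i, -, rfl⟩ | rfl | ⟨i, -, rfl⟩ | h
  · simp [tv]
  · simp [cv]
  · simp [sv]
  · simp [cv]
  · rw [tag_xvars h]; omega

def WW (cs : List Con) : List Var := dd (U2 cs)

theorem CL_pos (cs : List Con) : 0 < (CL (Q2 cs)).length := by
  simp [CL, Q2, chain, sqLen]

def inst (cs : List Con) : Inst :=
  mkInst (WW cs) (forms (WW cs) (Q2 cs)) _ (CL_pos cs)

theorem inst_spec (cs : List Con) :
    (inst cs).specNorm ≤ (inst cs).σ ↔ ¬ ∃ w, ∀ c ∈ cs, MP_3930bf_lc.Sat w c := by
  rw [main_alg]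
  refine tensor_main (dd_nodup _) (fun h => ?_) (fun h => ?_) (mem_dd.2 (by simp [U2])) ?_ _
  · have := tag_U2 (mem_dd.1 h)
    simp [pad] at this
  · have := tag_U2 (mem_dd.1 h)
    simp [dv] at this
  · exact (over_Q2 cs).mono fun v hv => mem_dd.2 hv

/-! polynomial time -/

instance : Inhabited Var := ⟨tv⟩
instance : Inhabited Con := ⟨(true, (true, 0, []), (true, 0, []), (true, 0, []))⟩
instance : Inhabited Mon := ⟨(tv, tv)⟩
instance : Inhabited Form := ⟨zf⟩
instance : Inhabited (Bool × Var × Var) := ⟨(true, tv, tv)⟩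

section
variable {α β : Type} [Enc α] [Enc β]

theorem ones_pt [Inhabited β] {f : α → List β} (hf : PT f) : PT fun a => ones (f a) :=
  PT.map (F := fun _ _ => true) hf (PT.const true)

theorem mulL_pt {f g : α → List Bool} (hf : PT f) (hg : PT g) : PT fun a => mulL (f a) (g a) :=
  PT.flatMap (F := fun a _ => g a) hf (PT.comp hg PT.fst')

theorem steps_pt {f : α → List Bool} (hf : PT f) : PT fun a => steps (f a) :=
  PT.map (F := fun _ (p : List Bool × Bool) => p.1)
    (PT.scan_pt (h := fun (s : List Bool) (_ : Bool) => true :: s) hf (PT.const [])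
      (PT.cons (PT.const true) PT.fst') 3 fun s b => by rw [sz_cons, sz_bool]; omega)
    (PT.fst PT.snd')

theorem cv_pt (g : ℕ) {f : α → List Bool} (hf : PT f) : PT fun a => cv g (f a) :=
  PT.pair (PT.const g) (PT.pair (PT.const (0 : ℕ)) hf)

theorem mon_pt (b : Bool) {x y : α → Var} (hx : PT x) (hy : PT y) :
    PT fun a => ((b, x a, y a) : Bool × Var × Var) :=
  PT.pair (PT.const b) (PT.pair hx hy)

theorem chain_pt (g : ℕ) {o : α → Var} {f : α → List Bool} (ho : PT o) (hf : PT f) :
    PT fun a => chain g (o a) (f a) := by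
  have h := mon_pt true ho ho
  refine PT.cons (PT.cons (mon_pt false (PT.const _) ho) (PT.cons h (PT.cons h (PT.cons h
    (PT.cons h (PT.const [])))))) ?_
  refine PT.map (F := fun a (s : List Bool) =>
    ([(false, cv g (true :: s), o a), (true, cv g s, cv g s)] : Eqn)) (steps_pt hf) ?_
  exact PT.cons (mon_pt false (cv_pt g (PT.cons (PT.const true) PT.snd')) (PT.comp ho PT.fst'))
    (PT.cons (mon_pt true (cv_pt g PT.snd') (cv_pt g PT.snd')) (PT.const []))

theorem cvars_pt (g : ℕ) {f : α → List Bool} (hf : PT f) : PT fun a => cvars g (f a) :=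
  PT.cons (PT.const _) (PT.map (F := fun _ (s : List Bool) => cv g (true :: s)) (steps_pt hf)
    (cv_pt g (PT.cons (PT.const true) PT.snd')))

theorem sqL_pt {f : α → List Eqn} (hf : PT f) : PT fun a => sqL (f a) :=
  PT.flatMap (F := fun _ (e : Eqn) => mulL (ones e) (ones e)) hf
    (mulL_pt (ones_pt PT.snd') (ones_pt PT.snd'))

theorem kkL_pt {f g : α → List Bool} (hf : PT f) (hg : PT g) : PT fun a => kkL (f a) (g a) := by
  have h := PT.cons (PT.const true) hf
  exact PT.append (PT.append (PT.append (mulL_pt h h) (mulL_pt (PT.const _) h))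
    (mulL_pt (PT.const _) hg)) (PT.const _)

theorem atom_pt {o : α → Var} {x : α → Atom} (ho : PT o) (hx : PT x) :
    PT fun a => atom (o a) (x a) :=
  PT.cond (PT.fst hx) ho (PT.pair (PT.const (1 : ℕ)) (PT.snd hx))

theorem eqOf_pt {o : α → Var} {c : α → Con} (ho : PT o) (hc : PT c) :
    PT fun a => eqOf (o a) (c a) := by
  have h1 := atom_pt ho (PT.fst (PT.snd hc))
  have h2 := atom_pt ho (PT.fst (PT.snd (PT.snd hc)))
  have h3 := atom_pt ho (PT.snd (PT.snd (PT.snd hc)))
  exact PT.cond (PT.fst hc)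
    (PT.cons (mon_pt false h1 h2) (PT.cons (mon_pt true h3 ho) (PT.const [])))
    (PT.cons (mon_pt false h1 ho) (PT.cons (mon_pt false h2 ho)
      (PT.cons (mon_pt true h3 ho) (PT.const []))))

theorem eqs_pt {o : α → Var} {c : α → List Con} (ho : PT o) (hc : PT c) :
    PT fun a => (c a).map (eqOf (o a)) :=
  PT.map (F := fun a c => eqOf (o a) c) hc (eqOf_pt (PT.comp ho PT.fst') PT.snd')

theorem xvars_pt : PT xvars := by
  have h : ∀ x : List Con × Con → Atom, PT x → PT fun p => (((1 : ℕ), (x p).2) : Var) :=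
    fun x hx => PT.pair (PT.const (1 : ℕ)) (PT.snd hx)
  exact PT.flatMap (F := fun _ (c : Con) =>
    ([(1, c.2.1.2), (1, c.2.2.1.2), (1, c.2.2.2.2)] : List Var)) PT.id
    (PT.cons (h _ (PT.fst (PT.snd PT.snd'))) (PT.cons (h _ (PT.fst (PT.snd (PT.snd PT.snd'))))
      (PT.cons (h _ (PT.snd (PT.snd (PT.snd PT.snd')))) (PT.const []))))

theorem L1_pt : PT L1 :=
  kkL_pt (ones_pt xvars_pt) (PT.append (sqL_pt (eqs_pt (PT.const tv) PT.id))
    (sqL_pt (PT.map (F := fun _ (v : Var) => ([(false, v, tv)] : Eqn)) xvars_pt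
      (PT.cons (mon_pt false PT.snd' (PT.const tv)) (PT.const [])))))

theorem Q1_pt {o : List Con → Var} (ho : PT o) : PT fun cs => Q1 (o cs) cs :=
  PT.cons (PT.cons (PT.const _) (PT.cons (mon_pt true (cv_pt 2 (ones_pt L1_pt)) ho)
    (PT.map (F := fun _ (v : Var) => ((false, v, v) : Bool × Var × Var)) xvars_pt
      (mon_pt false PT.snd' PT.snd'))))
    (PT.append (chain_pt 2 ho L1_pt) (eqs_pt ho PT.id))

theorem U1_pt : PT U1 := PT.cons (PT.const _) (PT.append (cvars_pt 2 L1_pt) xvars_pt)

theorem L2_pt : PT L2 := kkL_pt (ones_pt U1_pt) (sqL_pt (Q1_pt (PT.const tv)))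

theorem Q2_pt : PT Q2 :=
  PT.append (chain_pt 4 (PT.const tv) L2_pt) (Q1_pt (cv_pt 4 (ones_pt L2_pt)))

theorem U2_pt : PT U2 := PT.cons (PT.const _) (PT.append (cvars_pt 4 L2_pt) U1_pt)

theorem isIn_pt {x : α → Var} {f : α → List Var} (hx : PT x) (hf : PT f) :
    PT fun a => isIn (x a) (f a) :=
  (PT.mem hx hf).congr fun a => by simp [isIn]

theorem dd_pt {f : α → List Var} (hf : PT f) : PT fun a => dd (f a) :=
  PT.foldl_add (h := fun _ (s : List Var) (b : Var) => bif isIn b s then s else b :: s) hf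
    (PT.const []) (PT.cond (isIn_pt (PT.snd PT.snd') (PT.fst PT.snd')) (PT.fst PT.snd')
      (PT.cons (PT.snd PT.snd') (PT.fst PT.snd'))) (fun a => 2 * sz (f a) + 1)
    (((Bd.const 2).mul hf.sz_bd).add (Bd.const 1)) (by
      intro a s b hb
      have := sz_le_of_mem hb
      cases isIn b s
      · rw [cond_false, sz_cons]; omega
      · simp)

theorem single_pt {m : α → Mon} (hm : PT m) : PT fun a => single (m a) :=
  PT.pair (PT.const false) (PT.pair hm (PT.const (dv, dv)))

theorem pairs_pt {W : α → List Var} (hW : PT W) : PT fun a => pairs (W a) :=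
  PT.flatMap (F := fun a (p : Var) => (W a).map fun q => ((p, q) : Mon)) hW
    (PT.map (F := fun (x : α × Var) (q : Var) => ((x.2, q) : Mon)) (PT.comp hW PT.fst')
      (PT.pair (PT.snd PT.fst') PT.snd'))

theorem allP_pt {W : α → List Var} (hW : PT W) : PT fun a => allP (W a) :=
  PT.map (F := fun _ (m : Mon) => single m) (pairs_pt hW) (single_pt PT.snd')

theorem butP_pt {W : α → List Var} {m : α → Mon} (hW : PT W) (hm : PT m) :
    PT fun a => butP (W a) (m a) :=
  PT.map (F := fun a (ν : Mon) => if ν = m a then zf else single ν) (pairs_pt hW)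
    (PT.iteEq PT.snd' (PT.comp hm PT.fst') (PT.const zf) (single_pt PT.snd'))

theorem FA_pt {e : α → Eqn} (he : PT e) : PT fun a => FA (e a) :=
  PT.flatMap (F := fun a (x : Bool × Var × Var) =>
      (e a).map fun b : Bool × Var × Var => ((decide (x.1 = b.1), x.2, b.2) : Form)) he
    (PT.map (F := fun (p : α × Bool × Var × Var) (b : Bool × Var × Var) =>
      ((decide (p.2.1 = b.1), p.2.2, b.2) : Form)) (PT.comp he PT.fst')
      (PT.pair (PT.eq (PT.fst (PT.snd PT.fst')) (PT.fst PT.snd'))
        (PT.pair (PT.snd (PT.snd PT.fst')) (PT.snd PT.snd'))))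

theorem FB_pt {W : α → List Var} {e : α → Eqn} (hW : PT W) (he : PT e) :
    PT fun a => FB (W a) (e a) :=
  PT.flatMap (F := fun a (_ : Bool) => (e a).flatMap fun x : Bool × Var × Var => butP (W a) x.2)
    (PT.append (ones_pt he) (ones_pt he))
    (PT.comp (G := fun a => (e a).flatMap fun x : Bool × Var × Var => butP (W a) x.2)
      (PT.flatMap (F := fun a (x : Bool × Var × Var) => butP (W a) x.2) he
      (butP_pt (PT.comp hW PT.fst') (PT.snd PT.snd'))) PT.fst')

theorem CL_pt {Q : α → List Eqn} (hQ : PT Q) : PT fun a => CL (Q a) :=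
  PT.append (sqL_pt hQ) (sqL_pt hQ)

theorem forms_pt {W : α → List Var} {Q : α → List Eqn} (hW : PT W) (hQ : PT Q) :
    PT fun a => forms (W a) (Q a) := by
  refine PT.cons (PT.const _) (PT.cons (PT.const _) (PT.append ?_ ?_))
  · exact PT.flatMap (F := fun a (e : Eqn) => FA e ++ FB (W a) e) hQ
      (PT.append (FA_pt PT.snd') (FB_pt (PT.comp hW PT.fst') PT.snd'))
  · exact PT.flatMap (F := fun a (_ : Bool) => (CL (Q a)).tail.flatMap fun _ => allP (W a))
      (CL_pt hQ) (PT.comp (G := fun a => (CL (Q a)).tail.flatMap fun _ => allP (W a))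
        (PT.flatMap (F := fun a (_ : Bool) => allP (W a)) (PT.tail (CL_pt hQ))
        (allP_pt (PT.comp hW PT.fst'))) PT.fst')

theorem entry_pt {x y : α → Var} {F : α → Form} (hx : PT x) (hy : PT y) (hF : PT F) :
    PT fun a => entry (x a) (y a) (F a) :=
  PT.comp (PT.ofFintype tbl) (PT.pair (PT.fst hF)
    (PT.pair (PT.eq (PT.pair hx hy) (PT.fst (PT.snd hF)))
      (PT.pair (PT.eq (PT.pair hy hx) (PT.fst (PT.snd hF)))
        (PT.pair (PT.eq (PT.pair hx hy) (PT.snd (PT.snd hF)))
          (PT.eq (PT.pair hy hx) (PT.snd (PT.snd hF)))))))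

end

def table (p : List Var × List Form × ℕ) : ℕ × List (List (List ℚ)) × ℚ :=
  ((idx p.1 p.2.1).length,
    (idx p.1 p.2.1).map fun a => (idx p.1 p.2.1).map fun b => (frm p.1 p.2.1).map fun F =>
      entry a b F, ((p.2.2 + p.2.2 : ℕ) : ℚ))

theorem table_pt : PT table := by
  have hi : PT fun p : List Var × List Form × ℕ => idx p.1 p.2.1 :=
    PT.append PT.fst' (PT.map (F := fun _ (_ : Form) => pad) (PT.fst PT.snd') (PT.const pad))
  have hf : PT fun p : List Var × List Form × ℕ => frm p.1 p.2.1 :=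
    PT.append (PT.fst PT.snd') (PT.map (F := fun _ (_ : Var) => zf) PT.fst' (PT.const zf))
  refine PT.pair (PT.length hi) (PT.pair ?_
    (PT.natCastRat (PT.add (PT.snd PT.snd') (PT.snd PT.snd'))))
  refine PT.map (F := fun (p : List Var × List Form × ℕ) (a : Var) =>
    (idx p.1 p.2.1).map fun b => (frm p.1 p.2.1).map fun F => entry a b F) hi ?_
  refine PT.map (F := fun (p : (List Var × List Form × ℕ) × Var) (b : Var) =>
    (frm p.1.1 p.1.2.1).map fun F => entry p.2 b F) (PT.comp hi PT.fst') ?_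
  exact PT.map (F := fun (p : ((List Var × List Form × ℕ) × Var) × Var) (F : Form) =>
    entry p.1.2 p.2 F) (PT.comp hf (PT.fst PT.fst'))
    (entry_pt (PT.snd (PT.fst PT.fst')) (PT.snd PT.fst') PT.snd')

theorem encInst_mk (W : List Var) (Fs : List Form) (C : ℕ) (hC : 0 < C) :
    encInst (mkInst W Fs C hC) = enc (table (W, Fs, C)) := by
  unfold encInst table
  congr 3
  simp only [mkInst]
  have h0 : ∀ a b : Var, (List.ofFn fun k : Fin (idx W Fs).length =>
      entry a b ((frm W Fs).getD k zf)) = (frm W Fs).map fun F => entry a b F := by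
    intro a b
    apply List.ext_getElem
    · simp [length_frm]
    · intro k h1 h2
      have hk : k < (frm W Fs).length := by simpa using h2
      simp [List.getD_eq_getElem?_getD, List.getElem?_eq_getElem hk]
  simp only [h0]
  have h1 : ∀ a : Var, (List.ofFn fun j : Fin (idx W Fs).length =>
      (frm W Fs).map fun F => entry a (idx W Fs)[j] F) =
      (idx W Fs).map fun b => (frm W Fs).map fun F => entry a b F :=
    fun a => List.ofFn_getElem_eq_map _ fun b => (frm W Fs).map fun F => entry a b F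
  simp only [Fin.getElem_fin] at h1 ⊢
  simp only [h1]
  exact List.ofFn_getElem_eq_map _ fun a =>
    (idx W Fs).map fun b => (frm W Fs).map fun F => entry a b F

def tab (cs : List Con) : ℕ × List (List (List ℚ)) × ℚ :=
  table (WW cs, forms (WW cs) (Q2 cs), (CL (Q2 cs)).length)

theorem tab_pt : PT tab := by
  have hW : PT WW := dd_pt U2_pt
  have h1 : PT fun cs => forms (WW cs) (Q2 cs) := forms_pt hW Q2_pt
  have h2 : PT fun cs => (CL (Q2 cs)).length := PT.length (CL_pt Q2_pt)
  exact PT.comp (G := table) table_pt (PT.pair hW (PT.pair h1 h2))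

theorem encInst_inst (cs : List Con) : encInst (inst cs) = enc (tab cs) := encInst_mk _ _ _ _

theorem ptr_code {β : Type} [Enc β] {G : List ℕ → β} (hG : PT G) :
    PTR encFm fun φ : Fm => enc (G φ.code) :=
  PTR.comp (F := Fm.code) hG PTR.id

theorem inst_ptr : PTR encFm fun φ : Fm => encInst (inst (allCons φ.code)) :=
  (ptr_code (PT.comp (G := tab) tab_pt allCons_pt)).congr fun φ => (encInst_inst _).symm

theorem inst_iff (φ : Fm) :
    (inst (allCons φ.code)).specNorm ≤ (inst (allCons φ.code)).σ ↔ ¬ ∃ y, φ.Holds y := by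
  rw [inst_spec, holds_iff]

end Pool.Agent.Lib.MP_50cd9e_lc
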