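import Pool.Agent.Lib.MP_50cd9e_lc.Bound

namespace Pool.Agent.Lib.MP_50cd9e_lc

open MvPolynomial

variable {V : Type}

def sgn {R : Type} [Ring R] (b : Bool) : R := bif b then -1 else 1

def mono {R : Type} [Ring R] (w : V → R) (m : Bool × V × V) : R := sgn m.1 * (w m.2.1 * w m.2.2)

def evq {R : Type} [Ring R] (w : V → R) (e : List (Bool × V × V)) : R := (e.map (mono w)).sum

def ss {R : Type} [Ring R] (w : V → R) (Q : List (List (Bool × V × V))) : R :=
  (Q.map fun e => evq w e ^ 2).sum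

def Over (S : V → Prop) (Q : List (List (Bool × V × V))) : Prop :=
  ∀ e ∈ Q, ∀ m ∈ e, S m.2.1 ∧ S m.2.2

def sqLen (Q : List (List (Bool × V × V))) : ℕ := (Q.map fun e => e.length * e.length).sum

section
variable {R : Type} [Ring R] (w : V → R)
@[simp] theorem sgn_true : (sgn true : R) = -1 := rfl
@[simp] theorem sgn_false : (sgn false : R) = 1 := rfl
@[simp] theorem evq_nil : evq w [] = 0 := rfl
@[simp] theorem evq_cons (m : Bool × V × V) (e) : evq w (m :: e) = mono w m + evq w e := by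
  simp [evq]
@[simp] theorem evq_append (e e' : List (Bool × V × V)) :
    evq w (e ++ e') = evq w e + evq w e' := by simp [evq]
@[simp] theorem ss_nil : ss w [] = 0 := rfl
@[simp] theorem ss_cons (e : List (Bool × V × V)) (Q) :
    ss w (e :: Q) = evq w e ^ 2 + ss w Q := by simp [ss]
@[simp] theorem ss_append (Q Q' : List (List (Bool × V × V))) :
    ss w (Q ++ Q') = ss w Q + ss w Q' := by simp [ss]
end

theorem ss_nonneg (w : V → ℝ) (Q : List (List (Bool × V × V))) : 0 ≤ ss w Q := by
  induction Q with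
  | nil => simp
  | cons e Q ih => rw [ss_cons]; positivity

theorem sq_le_ss (w : V → ℝ) {Q : List (List (Bool × V × V))} {e} (he : e ∈ Q) :
    evq w e ^ 2 ≤ ss w Q := by
  induction Q with
  | nil => simp at he
  | cons e' Q ih =>
    rw [ss_cons]
    rcases List.mem_cons.1 he with rfl | he
    · linarith [ss_nonneg w Q]
    · linarith [ih he, sq_nonneg (evq w e')]

theorem ss_eq_zero (w : V → ℝ) (Q : List (List (Bool × V × V))) :
    ss w Q = 0 ↔ ∀ e ∈ Q, evq w e = 0 := by
  constructor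
  · intro h e he
    have := sq_le_ss w he
    rw [h] at this
    exact pow_eq_zero_iff (two_ne_zero) |>.1 (le_antisymm this (sq_nonneg _))
  · intro h
    induction Q with
    | nil => simp
    | cons e Q ih =>
      rw [ss_cons, h e List.mem_cons_self, ih fun e he => h e (List.mem_cons_of_mem _ he)]
      simp

theorem ss_scale {S : V → Prop} {Q : List (List (Bool × V × V))} (hQ : Over S Q)
    {w w' : V → ℝ} (a : ℝ) (h : ∀ v, S v → w' v = a * w v) : ss w' Q = a ^ 4 * ss w Q := by
  induction Q with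
  | nil => simp
  | cons e Q ih =>
    rw [ss_cons, ss_cons, ih fun e he => hQ e (List.mem_cons_of_mem _ he)]
    have he := hQ e List.mem_cons_self
    have : evq w' e = a ^ 2 * evq w e := by
      clear ih hQ
      induction e with
      | nil => simp
      | cons m e ih =>
        rw [evq_cons, evq_cons, ih fun m hm => he m (List.mem_cons_of_mem _ hm)]
        have := he m List.mem_cons_self
        simp only [mono, h _ this.1, h _ this.2]
        ring
    rw [this]
    ring

theorem ss_congr {S : V → Prop} {Q : List (List (Bool × V × V))} (hQ : Over S Q)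
    {w w' : V → ℝ} (h : ∀ v, S v → w' v = w v) : ss w' Q = ss w Q := by
  simpa using ss_scale hQ (w := w) (w' := w') 1 (by simpa using h)

theorem map_ss {R R' : Type} [CommRing R] [CommRing R'] (φ : R →+* R') (w : V → R)
    (Q : List (List (Bool × V × V))) : φ (ss w Q) = ss (fun v => φ (w v)) Q := by
  have h : ∀ e : List (Bool × V × V), φ (evq w e) = evq (fun v => φ (w v)) e := by
    intro e
    induction e with
    | nil => simp
    | cons m e ih =>
      rcases m with ⟨b, p, q⟩
      cases b <;> simp [ih, mono]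
  induction Q with
  | nil => simp
  | cons e Q ih => simp [ih, h]

theorem sm_ss {σ : Type} {w : V → MvPolynomial σ ℤ} (hw : ∀ v, Sm 1 1 (w v))
    (Q : List (List (Bool × V × V))) : Sm 4 (sqLen Q) (ss w Q) := by
  have h : ∀ e : List (Bool × V × V), Sm 2 e.length (evq w e) := by
    intro e
    induction e with
    | nil => exact Sm.zero 2
    | cons m e ih =>
      rw [evq_cons, List.length_cons, add_comm e.length]
      refine Sm.add ?_ ih
      rcases m with ⟨b, p, q⟩
      have := (hw p).mul (hw q)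
      cases b
      · simpa [mono] using this
      · simpa [mono] using this.neg
  induction Q with
  | nil => exact Sm.zero 4
  | cons e Q ih =>
    rw [ss_cons, sq]
    exact ((h e).mul (h e)).add ih

theorem kk_mono {N N' H H' : ℕ} (h1 : N ≤ N') (h2 : H ≤ H') : kk N H ≤ kk N' H' := by
  unfold kk
  have := Nat.mul_le_mul (Nat.add_le_add_right h1 1) (Nat.add_le_add_right h1 1)
  omega

theorem lemG_sys [DecidableEq V] (o : V) (U : List V) (F C : List (List (Bool × V × V)))
    (hF : Over (fun v => v = o ∨ v ∈ U) F) (hC : Over (fun v => v = o ∨ v ∈ U) C) {k : ℕ}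
    (hk : kk U.length (sqLen F + sqLen C) ≤ k)
    (hprop : ∀ t : ℝ, ∃ R : ℝ, ∀ w : V → ℝ, w o = 1 → ss w F + ss w C ≤ t → ∀ v ∈ U, |w v| ≤ R)
    (hfeas : ∃ w : V → ℝ, w o = 1 ∧ ss w F = 0) :
    ∃ w₀ : V → ℝ, w₀ o = 1 ∧ ss w₀ F = 0 ∧
      (∀ w : V → ℝ, w o = 1 → ss w F = 0 → ss w₀ C ≤ ss w C) ∧
      ss w₀ C ≤ (2 : ℝ) ^ 2 ^ k ∧ (ss w₀ C = 0 ∨ 1 ≤ ss w₀ C * (2 : ℝ) ^ 2 ^ k) := by
  classical
  let S : Finset V := U.toFinset.erase o
  let N := S.card
  have hN : N ≤ U.length :=
    (Finset.card_erase_le).trans (List.toFinset_card_le U)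
  let ε : S ≃ Fin N := S.equivFin
  let pv : V → MvPolynomial (Fin N) ℤ := fun v =>
    if v = o then 1 else if h : v ∈ S then X (ε ⟨v, h⟩) else 0
  let ex : (Fin N → ℝ) → V → ℝ := fun x v =>
    if v = o then 1 else if h : v ∈ S then x (ε ⟨v, h⟩) else 0
  have hpv : ∀ v, Sm 1 1 (pv v) := by
    intro v
    simp only [pv]
    split_ifs
    · exact Sm.one.mono (by omega) le_rfl
    · exact Sm.X _
    · exact (Sm.zero 1).mono le_rfl (by omega)
  have hev : ∀ (x : Fin N → ℝ) Q, aeval x (ss pv Q) = ss (ex x) Q := by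
    intro x Q
    have := map_ss (aeval x : MvPolynomial (Fin N) ℤ →ₐ[ℤ] ℝ).toRingHom pv Q
    refine this.trans ?_
    congr 1
    funext v
    simp only [pv, ex]
    split_ifs <;> simp
  have hexo : ∀ x, ex x o = 1 := fun x => by simp [ex]
  have hres : ∀ w : V → ℝ, w o = 1 → ∀ v, (v = o ∨ v ∈ U) →
      ex (fun i => w (ε.symm i)) v = w v := by
    intro w hw v hv
    simp only [ex]
    split_ifs with h1 h2
    · rw [h1, hw]
    · simp
    · exact absurd (Finset.mem_erase.2 ⟨h1, List.mem_toFinset.2 (hv.resolve_left h1)⟩) h2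
  have hnorm : ∀ t : ℝ, ∃ R : ℝ, ∀ x : Fin N → ℝ,
      aeval x (ss pv F) + aeval x (ss pv C) ≤ t → ‖x‖ < R := by
    intro t
    obtain ⟨R, hR⟩ := hprop t
    refine ⟨max R 0 + 1, fun x hx => ?_⟩
    rw [hev, hev] at hx
    have : ‖x‖ ≤ max R 0 := by
      refine (pi_norm_le_iff_of_nonneg (le_max_right _ _)).2 fun i => ?_
      have hi := (ε.symm i).2
      have h1 := hR _ (hexo x) hx (ε.symm i) (List.mem_toFinset.1 (Finset.mem_erase.1 hi).2)
      have h2 : ex x (ε.symm i) = x i := by
        simp only [ex]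
        rw [if_neg (Finset.mem_erase.1 hi).1, dif_pos hi]
        simp
      rw [h2] at h1
      exact le_trans h1 (le_max_left _ _)
    linarith
  obtain ⟨w₁, hw₁, hw₁F⟩ := hfeas
  let x₁ : Fin N → ℝ := fun i => w₁ (ε.symm i)
  have hx₁ : aeval x₁ (ss pv F) = 0 := by
    rw [hev, ss_congr hF (hres w₁ hw₁), hw₁F]
  obtain ⟨R₁, hR₁⟩ := hnorm (aeval x₁ (ss pv C))
  let K : Set (Fin N → ℝ) := Metric.closedBall 0 R₁ ∩ {x | aeval x (ss pv F) = 0}
  have hK : IsCompact K := (isCompact_closedBall _ _).inter_right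
    (isClosed_eq (continuous_aeval _) continuous_const)
  have hx₁K : x₁ ∈ K := ⟨by simpa using (hR₁ x₁ (by rw [hx₁, zero_add])).le, hx₁⟩
  obtain ⟨x₀, hx₀K, hx₀⟩ := hK.exists_isMinOn ⟨x₁, hx₁K⟩ (continuous_aeval (ss pv C)).continuousOn
  have hmin : ∀ x : Fin N → ℝ, aeval x (ss pv F) = 0 →
      aeval x₀ (ss pv C) ≤ aeval x (ss pv C) := by
    intro x hx
    by_cases h : aeval x (ss pv C) ≤ aeval x₁ (ss pv C)
    · exact hx₀ (show x ∈ K from ⟨by simpa using (hR₁ x (by rw [hx, zero_add]; exact h)).le, hx⟩)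
    · exact le_trans (hx₀ hx₁K) (not_le.1 h).le
  obtain ⟨R, hR⟩ := hnorm (aeval x₀ (ss pv C) + 1)
  have key := lemG_fin (H := sqLen F + sqLen C)
    ((sm_ss hpv F).mono le_rfl (by omega)) ((sm_ss hpv C).mono le_rfl (by omega))
    (fun x => by rw [hev]; exact ss_nonneg _ _) (fun x => by rw [hev]; exact ss_nonneg _ _)
    hx₀K.2 hmin hR
  have hM : (2 : ℝ) ^ 2 ^ kk N (sqLen F + sqLen C) ≤ (2 : ℝ) ^ 2 ^ k :=
    pow_le_pow_right₀ (by norm_num)
      (Nat.pow_le_pow_right (by norm_num) ((kk_mono hN le_rfl).trans hk))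
  rw [hev] at key
  refine ⟨ex x₀, hexo _, by rw [← hev]; exact hx₀K.2, fun w hw hwF => ?_, key.1.trans hM,
    key.2.imp id fun h => h.trans (mul_le_mul_of_nonneg_left hM (ss_nonneg _ _))⟩
  have := hmin (fun i => w (ε.symm i)) (by rw [hev, ss_congr hF (hres w hw), hwF])
  rwa [hev, hev, ss_congr hC (hres w hw)] at this

end Pool.Agent.Lib.MP_50cd9e_lc
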