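import Pool.Agent.Lib.MP_50cd9e_lc.Alg
import Pool.Agent.Lib.MP_50cd9e_lc.Defs

namespace Pool.Agent.Lib.MP_50cd9e_lc

open Pool.Agent.Lib.helper82

abbrev Mon := Var × Var
abbrev Form := Bool × Mon × Mon

instance decVar : DecidableEq Var := instDecidableEqProd
instance decMon : DecidableEq Mon := instDecidableEqProd

def dv : Var := (5, 0, [])
def pad : Var := (6, 0, [])
def single (μ : Mon) : Form := (false, μ, dv, dv)
def zf : Form := single (dv, dv)
def pairs (W : List Var) : List Mon := W.flatMap fun p => W.map fun q => (p, q)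
def allP (W : List Var) : List Form := (pairs W).map single
def butP (W : List Var) (μ : Mon) : List Form :=
  (pairs W).map fun ν => if ν = μ then zf else single ν
def FA (e : Eqn) : List Form :=
  e.flatMap fun a => e.map fun b => (decide (a.1 = b.1), a.2, b.2)
def FB (W : List Var) (e : Eqn) : List Form :=
  (ones e ++ ones e).flatMap fun _ => e.flatMap fun a => butP W a.2
def CL (Q : List Eqn) : List Bool := sqL Q ++ sqL Q
def padF (W : List Var) (Q : List Eqn) : List Form :=
  (CL Q).flatMap fun _ => (CL Q).tail.flatMap fun _ => allP W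
def forms (W : List Var) (Q : List Eqn) : List Form :=
  single (tv, tv) :: single (tv, tv) :: ((Q.flatMap fun e => FA e ++ FB W e) ++ padF W Q)

def mv (w : Var → ℝ) (μ : Mon) : ℝ := w μ.1 * w μ.2
def fval (w : Var → ℝ) (F : Form) : ℝ := mv w F.2.1 + sgn F.1 * mv w F.2.2
def sf (w : Var → ℝ) (Fs : List Form) : ℝ := (Fs.map fun F => fval w F ^ 2).sum
def nsq (w : Var → ℝ) (W : List Var) : ℝ := (W.map fun v => w v ^ 2).sum

section
variable {w : Var → ℝ}

@[simp] theorem sf_nil : sf w [] = 0 := rfl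
@[simp] theorem sf_cons (F : Form) (Fs) : sf w (F :: Fs) = fval w F ^ 2 + sf w Fs := by simp [sf]
@[simp] theorem sf_append (Fs Gs : List Form) : sf w (Fs ++ Gs) = sf w Fs + sf w Gs := by
  simp [sf]

theorem sf_flatMap {α : Type} (l : List α) (f : α → List Form) :
    sf w (l.flatMap f) = (l.map fun a => sf w (f a)).sum := by
  induction l with
  | nil => rfl
  | cons a l ih => simp [ih]

theorem sf_rep {α : Type} (l : List α) (Fs : List Form) :
    sf w (l.flatMap fun _ => Fs) = l.length * sf w Fs := by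
  rw [sf_flatMap]
  simp

theorem fval_single (hw : w dv = 0) (μ : Mon) : fval w (single μ) = mv w μ := by
  simp [fval, single, mv, hw]

theorem sum_pairs (W W' : List Var) :
    ((W.flatMap fun p => W'.map fun q => ((p, q) : Mon)).map fun ν => mv w ν ^ 2).sum =
      nsq w W * nsq w W' := by
  induction W with
  | nil => simp [nsq]
  | cons p W ih =>
    simp only [List.flatMap_cons, List.map_append, List.sum_append, ih, List.map_map]
    have : (W'.map ((fun ν => mv w ν ^ 2) ∘ fun q => ((p, q) : Mon))).sum = w p ^ 2 * nsq w W' := by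
      rw [nsq, ← List.sum_map_mul_left]
      congr 1
      exact List.map_congr_left fun q _ => by simp [mv, mul_pow]
    rw [this]
    simp [nsq]
    ring

theorem sf_allP (hw : w dv = 0) (W : List Var) : sf w (allP W) = nsq w W ^ 2 := by
  rw [sq, ← sum_pairs]
  simp [sf, allP, pairs, Function.comp_def, fval_single hw]

theorem sum_but {α : Type} [DecidableEq α] (g : α → ℝ) {l : List α} (hl : l.Nodup) {a : α}
    (ha : a ∈ l) : (l.map fun b => if b = a then 0 else g b).sum = (l.map g).sum - g a := by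
  induction l with
  | nil => simp at ha
  | cons b l ih =>
    rw [List.nodup_cons] at hl
    simp only [List.map_cons, List.sum_cons]
    by_cases hb : b = a
    · subst hb
      have : (l.map fun c => if c = b then 0 else g c) = l.map g :=
        List.map_congr_left fun c hc => if_neg (by rintro rfl; exact hl.1 hc)
      simp [this]
    · rw [if_neg hb, ih hl.2 ((List.mem_cons.1 ha).resolve_left (Ne.symm hb))]
      ring

theorem sf_butP (hw : w dv = 0) {W : List Var} (hW : W.Nodup) {μ : Mon} (h1 : μ.1 ∈ W)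
    (h2 : μ.2 ∈ W) : sf w (butP W μ) = nsq w W ^ 2 - mv w μ ^ 2 := by
  have hn : (pairs W).Nodup := List.Nodup.product hW hW
  have hm : μ ∈ pairs W := List.mem_flatMap.2 ⟨μ.1, h1, List.mem_map.2 ⟨μ.2, h2, rfl⟩⟩
  rw [sq (nsq w W), ← sum_pairs]
  refine Eq.trans ?_ (sum_but (fun ν => mv w ν ^ 2) hn hm)
  simp only [sf, butP, List.map_map]
  congr 1
  refine List.map_congr_left fun ν _ => ?_
  simp only [Function.comp]
  split_ifs
  · simp [zf, fval_single hw, mv, hw]
  · rw [fval_single hw]

theorem sf_FA_aux (e e' : Eqn) :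
    sf w (e.flatMap fun a => e'.map fun b => ((decide (a.1 = b.1), a.2, b.2) : Form)) =
      e'.length * (e.map fun a => mv w a.2 ^ 2).sum +
        e.length * (e'.map fun a => mv w a.2 ^ 2).sum - 2 * (evq w e * evq w e') := by
  have h : ∀ a : Bool × Var × Var,
      sf w (e'.map fun b => ((decide (a.1 = b.1), a.2, b.2) : Form)) =
        e'.length * mv w a.2 ^ 2 + (e'.map fun a => mv w a.2 ^ 2).sum -
          2 * (mono w a * evq w e') := by
    intro a
    induction e' with
    | nil => simp
    | cons b e' ih =>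
      simp only [List.map_cons, sf_cons, ih, List.length_cons, List.sum_cons, evq_cons]
      rcases a with ⟨_ | _, a⟩ <;> rcases b with ⟨_ | _, b⟩ <;>
        simp [fval, mono, mv] <;> ring
  induction e with
  | nil => simp
  | cons a e ih =>
    simp only [List.flatMap_cons, sf_append, ih, h, List.map_cons, List.sum_cons,
      List.length_cons, evq_cons]
    push_cast
    ring

theorem sf_eqn (hw : w dv = 0) {W : List Var} (hW : W.Nodup) {e : Eqn}
    (he : ∀ m ∈ e, m.2.1 ∈ W ∧ m.2.2 ∈ W) :
    sf w (FA e ++ FB W e) = 2 * (e.length * e.length : ℕ) * nsq w W ^ 2 - 2 * evq w e ^ 2 := by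
  have h : sf w (e.flatMap fun a => butP W a.2) =
      e.length * nsq w W ^ 2 - (e.map fun a => mv w a.2 ^ 2).sum := by
    induction e with
    | nil => simp
    | cons a e ih =>
      have ha := he a List.mem_cons_self
      simp only [List.flatMap_cons, sf_append, sf_butP hw hW ha.1 ha.2,
        ih fun m hm => he m (List.mem_cons_of_mem _ hm), List.length_cons, List.map_cons,
        List.sum_cons]
      push_cast
      ring
  rw [sf_append, FA, sf_FA_aux, FB, sf_rep, h]
  simp only [List.length_append, length_ones]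
  push_cast
  ring

theorem sf_forms (hw : w dv = 0) {W : List Var} (hW : W.Nodup) {Q : List Eqn}
    (hQ : Over (fun v => v ∈ W) Q) :
    sf w (forms W Q) = 2 * w tv ^ 4 - 2 * ss w Q + ((CL Q).length : ℝ) ^ 2 * nsq w W ^ 2 := by
  have h1 : sf w (Q.flatMap fun e => FA e ++ FB W e) =
      2 * (sqLen Q : ℝ) * nsq w W ^ 2 - 2 * ss w Q := by
    induction Q with
    | nil => simp [sqLen]
    | cons e Q ih =>
      rw [List.flatMap_cons, sf_append, sf_eqn hw hW (hQ e List.mem_cons_self),
        ih fun e he => hQ e (List.mem_cons_of_mem _ he), ss_cons]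
      simp only [sqLen, List.map_cons, List.sum_cons]
      push_cast
      ring
  have h2 : ((CL Q).length : ℝ) = 2 * sqLen Q := by
    simp [CL]
    ring
  have h3 : ((CL Q).length : ℝ) * (CL Q).tail.length = (CL Q).length ^ 2 - (CL Q).length := by
    rcases CL Q with _ | ⟨a, l⟩
    · simp
    · simp
      ring
  rw [forms, sf_cons, sf_cons, sf_append, h1, padF, sf_rep, sf_rep, sf_allP hw,
    fval_single hw, ← mul_assoc, h3, ← h2]
  simp only [mv]
  ring

end

def tbl (p : Bool × Bool × Bool × Bool × Bool) : ℚ :=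
  (bif p.2.1 then 1 else 0) + (bif p.2.2.1 then 1 else 0) +
    sgn p.1 * ((bif p.2.2.2.1 then 1 else 0) + (bif p.2.2.2.2 then 1 else 0))

def entry (a b : Var) (F : Form) : ℚ :=
  tbl (F.1, decide ((a, b) = F.2.1), decide ((b, a) = F.2.1), decide ((a, b) = F.2.2),
    decide ((b, a) = F.2.2))

def idx (W : List Var) (Fs : List Form) : List Var := W ++ Fs.map fun _ => pad
def frm (W : List Var) (Fs : List Form) : List Form := Fs ++ W.map fun _ => zf

theorem length_frm (W : List Var) (Fs : List Form) : (frm W Fs).length = (idx W Fs).length := by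
  simp [frm, idx, add_comm]

def mkInst (W : List Var) (Fs : List Form) (C : ℕ) (hC : 0 < C) : Inst where
  d := (idx W Fs).length
  T := fun i j k => entry (idx W Fs)[i] (idx W Fs)[j] ((frm W Fs).getD k zf)
  σ := ((C + C : ℕ) : ℚ)
  pos := by exact_mod_cast (by omega : 0 < C + C)

section
variable {d : ℕ} (ι : Fin d → Var)

noncomputable def lift (x : Fin d → ℝ) (v : Var) : ℝ := ∑ i, if ι i = v then x i else 0

def bil (u v : Var → ℝ) (μ : Mon) : ℝ := u μ.1 * v μ.2 + u μ.2 * v μ.1
def bf (u v : Var → ℝ) (F : Form) : ℝ := bil u v F.2.1 + sgn F.1 * bil u v F.2.2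

theorem sum_ind (x y : Fin d → ℝ) (p q : Var) :
    ∑ i, ∑ j, (if (ι i, ι j) = (p, q) then (1 : ℝ) else 0) * x i * y j =
      lift ι x p * lift ι y q := by
  rw [lift, lift, Finset.sum_mul_sum]
  refine Finset.sum_congr rfl fun i _ => Finset.sum_congr rfl fun j _ => ?_
  by_cases h1 : ι i = p <;> by_cases h2 : ι j = q <;> simp [h1, h2]

theorem sum_ind' (x y : Fin d → ℝ) (p q : Var) :
    ∑ i, ∑ j, (if (ι j, ι i) = (p, q) then (1 : ℝ) else 0) * x i * y j =
      lift ι x q * lift ι y p := by
  rw [← sum_ind]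
  refine Finset.sum_congr rfl fun i _ => Finset.sum_congr rfl fun j _ => ?_
  simp only [Prod.mk.injEq, and_comm]

theorem sum_entry (x y : Fin d → ℝ) (F : Form) :
    ∑ i, ∑ j, (entry (ι i) (ι j) F : ℝ) * x i * y j = bf (lift ι x) (lift ι y) F := by
  rcases F with ⟨b, ⟨p, q⟩, ⟨p', q'⟩⟩
  have h : ∀ a c : Var, (entry a c (b, (p, q), (p', q')) : ℝ) =
      (if (a, c) = (p, q) then (1 : ℝ) else 0) + (if (c, a) = (p, q) then (1 : ℝ) else 0) +
      sgn b * ((if (a, c) = (p', q') then (1 : ℝ) else 0) +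
        (if (c, a) = (p', q') then (1 : ℝ) else 0)) := by
    intro a c
    have hb : ∀ (P : Prop) [Decidable P],
        (((bif decide P then 1 else 0 : ℚ)) : ℝ) = if P then 1 else 0 := by
      intro P _
      by_cases h : P <;> simp [h]
    simp only [entry, tbl]
    push_cast
    simp only [hb]
    cases b <;> simp
  simp only [bf, bil, ← sum_ind, h]
  simp only [Finset.mul_sum, ← Finset.sum_add_distrib]
  refine Finset.sum_congr rfl fun i _ => Finset.sum_congr rfl fun j _ => ?_
  simp only [Prod.mk.injEq, and_comm (a := ι j = p), and_comm (a := ι j = p')]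
  ring

theorem lift_add (x y : Fin d → ℝ) (v : Var) : lift ι (x + y) v = lift ι x v + lift ι y v := by
  simp only [lift, ← Finset.sum_add_distrib]
  exact Finset.sum_congr rfl fun i _ => by split_ifs <;> simp

theorem lift_sub (x y : Fin d → ℝ) (v : Var) : lift ι (x - y) v = lift ι x v - lift ι y v := by
  simp only [lift, ← Finset.sum_sub_distrib]
  exact Finset.sum_congr rfl fun i _ => by split_ifs <;> simp

end

theorem bf_self (u : Var → ℝ) (F : Form) : bf u u F = 2 * fval u F := by
  simp only [bf, bil, fval, mv]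
  ring

theorem bf_polar (u v : Var → ℝ) (F : Form) :
    4 * bf u v F = bf (fun a => u a + v a) (fun a => u a + v a) F -
      bf (fun a => u a - v a) (fun a => u a - v a) F := by
  simp only [bf, bil]
  ring

section
variable {W : List Var} {Fs : List Form}

theorem sum_getElem {α : Type} (l : List α) (g : α → ℝ) :
    ∑ i : Fin l.length, g l[i] = (l.map g).sum := by
  rw [← List.sum_ofFn]
  congr 1
  exact List.ofFn_getElem_eq_map l g

theorem sum_frm {w : Var → ℝ} (hw : w dv = 0) :
    ∑ k : Fin (idx W Fs).length, fval w ((frm W Fs).getD k zf) ^ 2 = sf w Fs := by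
  have h := sum_getElem (frm W Fs) fun F => fval w F ^ 2
  have h2 : sf w (frm W Fs) = sf w Fs := by
    rw [frm, sf_append]
    have : sf w (W.map fun _ => zf) = 0 := by
      simp [sf, zf, fval_single hw, mv, hw]
    rw [this, add_zero]
  rw [← h2, sf, ← h]
  refine Fintype.sum_equiv (finCongr (length_frm W Fs).symm) _ _ fun k => ?_
  have hk : (k : ℕ) < (frm W Fs).length := by rw [length_frm]; exact k.2
  simp [List.getD_eq_getElem?_getD, List.getElem?_eq_getElem hk]

theorem idx_unique (hW : W.Nodup) (hp : pad ∉ W) {i j : Fin (idx W Fs).length}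
    (hi : (idx W Fs)[i] ∈ W) (h : (idx W Fs)[j] = (idx W Fs)[i]) : j = i := by
  have key : ∀ k : Fin (idx W Fs).length, (idx W Fs)[k] ∈ W →
      ∃ hk : (k : ℕ) < W.length, (idx W Fs)[k] = W[(k : ℕ)] := by
    intro k hk
    by_cases h : (k : ℕ) < W.length
    · exact ⟨h, List.getElem_append_left h⟩
    · exfalso
      have : (idx W Fs)[k] = pad := by
        have h' : W.length ≤ (k : ℕ) := by omega
        exact (List.getElem_append_right (as := W) (bs := Fs.map fun _ => pad) h'
          (h₂ := k.2)).trans (by simp)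
      exact hp (this ▸ hk)
  obtain ⟨h1, e1⟩ := key i hi
  obtain ⟨h2, e2⟩ := key j (h ▸ hi)
  rw [e1, e2] at h
  exact Fin.ext ((List.Nodup.getElem_inj_iff hW).1 h)

theorem lift_idx (hW : W.Nodup) (hp : pad ∉ W) (x : Fin (idx W Fs).length → ℝ)
    {i : Fin (idx W Fs).length} (hi : (idx W Fs)[i] ∈ W) :
    lift (fun i => (idx W Fs)[i]) x (idx W Fs)[i] = x i := by
  rw [lift, Finset.sum_eq_single i]
  · simp
  · intro j _ hj
    exact if_neg fun h => hj (idx_unique hW hp hi h)
  · simp

theorem sum_idx (hp : pad ∉ W) (g : Var → ℝ) :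
    ∑ i : Fin (idx W Fs).length, (if (idx W Fs)[i] ∈ W then g (idx W Fs)[i] else 0) =
      (W.map g).sum := by
  rw [sum_getElem (idx W Fs) fun v => if v ∈ W then g v else 0]
  simp only [idx, List.map_append, List.sum_append, List.map_map, Function.comp_def, hp, if_false]
  rw [List.map_congr_left (g := g) fun v hv => if_pos hv]
  simp

theorem nsq_lift_le (hW : W.Nodup) (hp : pad ∉ W) (x : Fin (idx W Fs).length → ℝ) :
    nsq (lift (fun i => (idx W Fs)[i]) x) W ≤ ∑ i, x i ^ 2 := by
  rw [nsq, ← sum_idx (Fs := Fs) hp]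
  refine Finset.sum_le_sum fun i _ => ?_
  split_ifs with h
  · rw [lift_idx hW hp x h]
  · positivity

theorem lift_dv (hd : dv ∉ W) (x : Fin (idx W Fs).length → ℝ) :
    lift (fun i => (idx W Fs)[i]) x dv = 0 := by
  refine Finset.sum_eq_zero fun i _ => if_neg fun h => ?_
  have : dv ∈ idx W Fs := h ▸ List.getElem_mem _
  simp only [idx, List.mem_append, List.mem_map] at this
  rcases this with h | ⟨_, _, h⟩
  · exact hd h
  · simp [pad, dv] at h

end

theorem bdd_spec (I : Inst) : BddAbove {r : ℝ | ∃ x y z : Fin I.d → ℝ, ∑ i, x i ^ 2 = 1 ∧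
    ∑ j, y j ^ 2 = 1 ∧ ∑ k, z k ^ 2 = 1 ∧
    r = |∑ i, ∑ j, ∑ k, (I.T i j k : ℝ) * x i * y j * z k|} := by
  refine ⟨∑ i, ∑ j, ∑ k, |(I.T i j k : ℝ)|, ?_⟩
  rintro _ ⟨x, y, z, hx, hy, hz, rfl⟩
  have h : ∀ x : Fin I.d → ℝ, ∑ i, x i ^ 2 = 1 → ∀ i, |x i| ≤ 1 := by
    intro x hx i
    rw [← sq_le_one_iff_abs_le_one, ← hx]
    exact Finset.single_le_sum (f := fun i => x i ^ 2) (fun _ _ => sq_nonneg _) (Finset.mem_univ i)
  refine (Finset.abs_sum_le_sum_abs _ _).trans (Finset.sum_le_sum fun i _ => ?_)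
  refine (Finset.abs_sum_le_sum_abs _ _).trans (Finset.sum_le_sum fun j _ => ?_)
  refine (Finset.abs_sum_le_sum_abs _ _).trans (Finset.sum_le_sum fun k _ => ?_)
  rw [abs_mul, abs_mul, abs_mul, mul_assoc, mul_assoc]
  refine mul_le_of_le_one_right (abs_nonneg _) ?_
  exact mul_le_one₀ (h x hx i) (by positivity) (mul_le_one₀ (h y hy j) (abs_nonneg _) (h z hz k))

theorem spec_le_iff (I : Inst) : I.specNorm ≤ I.σ ↔ ∀ x y z : Fin I.d → ℝ, ∑ i, x i ^ 2 = 1 →
    ∑ j, y j ^ 2 = 1 → ∑ k, z k ^ 2 = 1 →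
    |∑ i, ∑ j, ∑ k, (I.T i j k : ℝ) * x i * y j * z k| ≤ I.σ := by
  constructor
  · intro h x y z hx hy hz
    exact (le_csSup (bdd_spec I) ⟨x, y, z, hx, hy, hz, rfl⟩).trans h
  · intro h
    refine Real.sSup_le ?_ (by exact_mod_cast I.pos.le)
    rintro _ ⟨x, y, z, hx, hy, hz, rfl⟩
    exact h x y z hx hy hz

theorem tensor_main {W : List Var} (hW : W.Nodup) (hp : pad ∉ W) (hd : dv ∉ W) (ht : tv ∈ W)
    {Q : List Eqn} (hQ : Over (fun v => v ∈ W) Q) (hC : 0 < (CL Q).length) :
    (mkInst W (forms W Q) _ hC).specNorm ≤ (mkInst W (forms W Q) _ hC).σ ↔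
      ¬ ∃ w : Var → ℝ, ss w Q < w tv ^ 4 := by
  rw [spec_le_iff]
  have hsf := fun (w : Var → ℝ) (hw : w dv = 0) => sf_forms hw hW hQ
  generalize forms W Q = Fs at hsf ⊢
  set C : ℝ := ((CL Q).length : ℝ) with hCdef
  have hC0 : 0 < C := by rw [hCdef]; exact_mod_cast hC
  have hσ : (((mkInst W Fs _ hC).σ : ℚ) : ℝ) = 2 * C := by
    simp only [mkInst, hCdef]
    push_cast
    ring
  let ι : Fin (idx W Fs).length → Var := fun i => (idx W Fs)[i]
  have hT : ∀ x y z : Fin (idx W Fs).length → ℝ,
      ∑ i, ∑ j, ∑ k, (((mkInst W Fs _ hC).T i j k : ℚ) : ℝ) * x i * y j * z k =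
        ∑ k : Fin (idx W Fs).length, bf (lift ι x) (lift ι y) ((frm W Fs).getD k zf) * z k := by
    intro x y z
    simp only [← sum_entry, Finset.sum_mul]
    symm
    rw [Finset.sum_comm]
    refine Finset.sum_congr rfl fun i _ => ?_
    rw [Finset.sum_comm]
    rfl
  rw [hσ]
  show (∀ x y z : Fin (idx W Fs).length → ℝ, _) ↔ _
  simp only [hT]
  constructor
  · rintro h ⟨w, hw⟩
    have ht0 : w tv ≠ 0 := by
      intro h0
      rw [h0] at hw
      linarith [ss_nonneg w Q]
    have hN : 0 < nsq w W := lt_of_lt_of_le (by positivity) (sq_le_sum w ht)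
    set a : ℝ := (√(nsq w W))⁻¹ with ha
    have ha2 : a ^ 2 * nsq w W = 1 := by
      rw [ha, inv_pow, Real.sq_sqrt hN.le, inv_mul_cancel₀ hN.ne']
    have ha0 : 0 < a := by rw [ha]; positivity
    let x : Fin (idx W Fs).length → ℝ := fun i => if ι i ∈ W then a * w (ι i) else 0
    have hx : ∑ i, x i ^ 2 = 1 := by
      rw [← ha2, nsq, ← List.sum_map_mul_left, ← sum_idx (Fs := Fs) hp]
      refine Finset.sum_congr rfl fun i _ => ?_
      simp only [x, ι]
      split_ifs <;> ring
    have hu : ∀ v, v ∈ W → lift ι x v = a * w v := by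
      intro v hv
      obtain ⟨i, hi, rfl⟩ := List.getElem_of_mem (l := idx W Fs) (List.mem_append_left _ hv)
      rw [show (idx W Fs)[i] = (idx W Fs)[(⟨i, hi⟩ : Fin _)] from rfl] at hv ⊢
      rw [lift_idx hW hp x hv]
      exact if_pos hv
    set u := lift ι x with hudef
    have hud : u dv = 0 := lift_dv hd x
    have hnu : nsq u W = 1 := by
      rw [← ha2, nsq, nsq, ← List.sum_map_mul_left]
      congr 1
      exact List.map_congr_left fun v hv => by rw [hu v hv]; ring
    have hs : C ^ 2 < sf u Fs := by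
      rw [hsf u hud, ss_scale hQ a hu, hu tv ht, hnu]
      have : 0 < a ^ 4 * (w tv ^ 4 - ss w Q) := mul_pos (by positivity) (by linarith)
      nlinarith
    have hs0 : 0 < sf u Fs := lt_trans (by positivity) hs
    set s := √(sf u Fs) with hsdef
    have hss : s ^ 2 = sf u Fs := Real.sq_sqrt hs0.le
    have hsp : 0 < s := Real.sqrt_pos.2 hs0
    have hCs : C < s := Real.lt_sqrt_of_sq_lt hs
    have h1 := h x x (fun k => s⁻¹ * fval u ((frm W Fs).getD k zf)) hx hx (by
      show ∑ k : Fin (idx W Fs).length, (s⁻¹ * fval u ((frm W Fs).getD k zf)) ^ 2 = 1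
      simp only [mul_pow, ← Finset.mul_sum]
      rw [sum_frm hud, ← hss]
      field_simp)
    have h2 : ∑ k : Fin (idx W Fs).length, bf u u ((frm W Fs).getD k zf) *
        (s⁻¹ * fval u ((frm W Fs).getD k zf)) = 2 * s := by
      have : ∀ k : Fin (idx W Fs).length, bf u u ((frm W Fs).getD k zf) *
          (s⁻¹ * fval u ((frm W Fs).getD k zf)) =
          2 * s⁻¹ * fval u ((frm W Fs).getD k zf) ^ 2 := fun k => by rw [bf_self]; ring
      simp only [this, ← Finset.mul_sum]
      rw [sum_frm hud, ← hss]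
      field_simp
    rw [h2, abs_of_pos (by positivity)] at h1
    linarith
  · intro h x y z hx hy hz
    push Not at h
    have key : ∀ x : Fin (idx W Fs).length → ℝ,
        |∑ k : Fin (idx W Fs).length, bf (lift ι x) (lift ι x) ((frm W Fs).getD k zf) * z k| ≤ 2 * C * ∑ i, x i ^ 2 := by
      intro x
      have h1 := Finset.sum_mul_sq_le_sq_mul_sq Finset.univ
        (fun k : Fin (idx W Fs).length => bf (lift ι x) (lift ι x) ((frm W Fs).getD k zf)) z
      have hz' : ∑ k, z k ^ 2 = 1 := hz
      rw [hz', mul_one] at h1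
      simp only [bf_self, mul_pow, ← Finset.mul_sum] at h1
      have hd' : lift ι x dv = 0 := lift_dv hd x
      rw [sum_frm hd', hsf _ hd'] at h1
      have h2 := h (lift ι x)
      have h3 := nsq_lift_le (Fs := Fs) hW hp x
      have h4 : 0 ≤ nsq (lift ι x) W := sumsq_nonneg _ _
      have h5 : nsq (lift ι x) W ^ 2 ≤ (∑ i, x i ^ 2) ^ 2 := pow_le_pow_left₀ h4 h3 2
      refine abs_le_of_sq_le_sq ?_ (by positivity)
      simp only [bf_self]
      refine h1.trans ?_
      have h6 := mul_le_mul_of_nonneg_left h5 (sq_nonneg C)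
      nlinarith
    have k1 := key (x + y)
    have k2 := key (x - y)
    have e1 : lift ι (x + y) = fun a => lift ι x a + lift ι y a := funext (lift_add ι x y)
    have e2 : lift ι (x - y) = fun a => lift ι x a - lift ι y a := funext (lift_sub ι x y)
    have e3 : ∑ i, (x + y) i ^ 2 + ∑ i, (x - y) i ^ 2 = 4 := by
      have hx' : ∑ i, x i ^ 2 = 1 := hx
      have hy' : ∑ i, y i ^ 2 = 1 := hy
      rw [← Finset.sum_add_distrib]
      have : ∀ i, (x + y) i ^ 2 + (x - y) i ^ 2 = 2 * x i ^ 2 + 2 * y i ^ 2 := fun i => by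
        simp only [Pi.add_apply, Pi.sub_apply]
        ring
      simp only [this, Finset.sum_add_distrib, ← Finset.mul_sum, hx', hy']
      norm_num
    have e4 : 4 * ∑ k : Fin (idx W Fs).length, bf (lift ι x) (lift ι y) ((frm W Fs).getD k zf) * z k =
        ∑ k : Fin (idx W Fs).length, bf (lift ι (x + y)) (lift ι (x + y)) ((frm W Fs).getD k zf) * z k -
        ∑ k : Fin (idx W Fs).length, bf (lift ι (x - y)) (lift ι (x - y)) ((frm W Fs).getD k zf) * z k := by
      rw [e1, e2, Finset.mul_sum, ← Finset.sum_sub_distrib]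
      refine Finset.sum_congr rfl fun k _ => ?_
      rw [← mul_assoc, bf_polar]
      ring
    rw [abs_le] at k1 k2 ⊢
    have e5 : 2 * C * ∑ i, (x + y) i ^ 2 + 2 * C * ∑ i, (x - y) i ^ 2 = 8 * C := by
      rw [← mul_add, e3]
      ring
    constructor <;> linarith [k1.1, k1.2, k2.1, k2.2]

end Pool.Agent.Lib.MP_50cd9e_lc
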